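import Pool.Agent.MT100A.Stmts
import Pool.Agent.Helper97_MTG.Mon

/-! MT100-A, module MOA: the monodromy matrices form a group. -/

set_option autoImplicit false

namespace Pool.Agent.MT100A.H97

open Matrix Polynomial Pool.Agent.MT100 Pool.Agent.MT100G Pool.Agent.Helper78_MT

variable {d : Type} [Fintype d] [DecidableEq d]

theorem base_sol (F : Sys d) :
    ∀ᶠ c : ℝ in Filter.atTop, SolOn F.q F.B (c : ℂ) 1 (YH F.H F.N) := by
  obtain ⟨R, hR, hsol, -⟩ := MT100G.H43.bas d F.H F.K F.N F.q F.B F.sys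
  filter_upwards [Filter.eventually_gt_atTop (R + 1)] with c hc
  refine hsol c 1 one_pos fun w hw => ?_
  rw [Metric.mem_ball, dist_eq_norm] at hw
  have h1 : |(w - c).re| ≤ ‖w - c‖ := Complex.abs_re_le_norm _
  have h2 : (w - (c : ℂ)).re = w.re - c := by simp
  rw [h2] at h1
  have h3 := (abs_le.mp (h1.trans hw.le)).1
  show R < w.re
  linarith

theorem sol_of_cnt {q : ℤ[X]} {B : Matrix d d ℤ[X]} {U : Set ℂ}
    {x y : ℂ × ℝ × (ℂ → Matrix d d ℂ)} (h : Cnt q B U x y) (hx : SolOn q B x.1 x.2.1 x.2.2) :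
    SolOn q B y.1 y.2.1 y.2.2 := by
  induction h with
  | refl => exact hx
  | tail _ hbc _ => exact hbc.2.1

/-- monodromy matrices are invertible -/
theorem mo_det (F : Sys d) (U : Set ℂ) (a : Matrix d d ℂ) (ha : a ∈ F.mo U) : IsUnit a.det := by
  have ha' : ∀ᶠ c : ℝ in Filter.atTop, Cnt F.q F.B U ((c : ℂ), 1, YH F.H F.N)
    ((c : ℂ), 1, fun w => YH F.H F.N w * a) := ha
  obtain ⟨c, hc1, hc2⟩ := (ha'.and (base_sol F)).exists
  have h1 := (sol_of_cnt hc1 hc2).det (c : ℂ) (Metric.mem_ball_self one_pos)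
  have h2 : IsUnit (YH F.H F.N (c : ℂ) * a).det := h1
  rw [Matrix.det_mul] at h2
  exact isUnit_of_mul_isUnit_right h2

theorem mo_one (F : Sys d) (U : Set ℂ) : (1 : Matrix d d ℂ) ∈ F.mo U := by
  show ∀ᶠ c : ℝ in Filter.atTop, Cnt F.q F.B U ((c : ℂ), 1, YH F.H F.N)
    ((c : ℂ), 1, fun w => YH F.H F.N w * 1)
  refine Filter.Eventually.of_forall fun c => ?_
  have : (fun w => YH F.H F.N w * 1) = YH F.H F.N := by
    funext w
    rw [mul_one]
  rw [this]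
  exact Relation.ReflTransGen.refl

theorem mo_mul (F : Sys d) (U : Set ℂ) {a b : Matrix d d ℂ} (ha : a ∈ F.mo U) (hb : b ∈ F.mo U) :
    a * b ∈ F.mo U := by
  have hd := mo_det F U b hb
  have ha' : ∀ᶠ c : ℝ in Filter.atTop, Cnt F.q F.B U ((c : ℂ), 1, YH F.H F.N)
    ((c : ℂ), 1, fun w => YH F.H F.N w * a) := ha
  have hb' : ∀ᶠ c : ℝ in Filter.atTop, Cnt F.q F.B U ((c : ℂ), 1, YH F.H F.N)
    ((c : ℂ), 1, fun w => YH F.H F.N w * b) := hb
  show ∀ᶠ c : ℝ in Filter.atTop, Cnt F.q F.B U ((c : ℂ), 1, YH F.H F.N)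
    ((c : ℂ), 1, fun w => YH F.H F.N w * (a * b))
  filter_upwards [ha', hb'] with c h1 h2
  have h3 := MT100G.H97.cnt_act h1 b hd
  have h4 : (fun w => YH F.H F.N w * (a * b)) = fun w => YH F.H F.N w * a * b := by
    funext w
    rw [Matrix.mul_assoc]
  rw [h4]
  exact h2.trans h3

theorem mo_inv (F : Sys d) (U : Set ℂ) {a : Matrix d d ℂ} (ha : a ∈ F.mo U) : a⁻¹ ∈ F.mo U := by
  have hd := mo_det F U a ha
  have ha' : ∀ᶠ c : ℝ in Filter.atTop, Cnt F.q F.B U ((c : ℂ), 1, YH F.H F.N)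
    ((c : ℂ), 1, fun w => YH F.H F.N w * a) := ha
  show ∀ᶠ c : ℝ in Filter.atTop, Cnt F.q F.B U ((c : ℂ), 1, YH F.H F.N)
    ((c : ℂ), 1, fun w => YH F.H F.N w * a⁻¹)
  filter_upwards [ha'] with c h1
  have hu : IsUnit a⁻¹.det := by
    rw [Matrix.det_nonsing_inv]
    exact hd.ringInverse
  have h3 := MT100G.H97.cnt_act (MT100G.H11.cnt_symm h1) a⁻¹ hu
  have h4 : (fun w => YH F.H F.N w * a * a⁻¹) = YH F.H F.N := by
    funext w
    rw [Matrix.mul_assoc, Matrix.mul_nonsing_inv _ hd, mul_one]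
  have h5 : Cnt F.q F.B U ((c : ℂ), 1, fun w => YH F.H F.N w * a * a⁻¹)
    ((c : ℂ), 1, fun w => YH F.H F.N w * a⁻¹) := h3
  rw [h4] at h5
  exact h5

theorem cnt_mono {q : ℤ[X]} {B : Matrix d d ℤ[X]} {U U' : Set ℂ} (h : U ⊆ U')
    {x y : ℂ × ℝ × (ℂ → Matrix d d ℂ)} (hxy : Cnt q B U x y) : Cnt q B U' x y := by
  induction hxy with
  | refl => exact Relation.ReflTransGen.refl
  | tail _ hbc ih =>
    obtain ⟨h1, h2, h3, h4, h5, h6⟩ := hbc
    exact ih.tail ⟨h1, h2, h3.trans h, h4.trans h, h5, h6⟩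

/-- a larger domain gives more monodromy -/
theorem mo_mono (F : Sys d) {U U' : Set ℂ} (h : U ⊆ U') : F.mo U ⊆ F.mo U' := by
  intro a ha
  have ha' : ∀ᶠ c : ℝ in Filter.atTop, Cnt F.q F.B U ((c : ℂ), 1, YH F.H F.N)
    ((c : ℂ), 1, fun w => YH F.H F.N w * a) := ha
  show ∀ᶠ c : ℝ in Filter.atTop, Cnt F.q F.B U' ((c : ℂ), 1, YH F.H F.N)
    ((c : ℂ), 1, fun w => YH F.H F.N w * a)
  filter_upwards [ha'] with c hc
  exact cnt_mono h hc

/-- MOA -/
theorem moa : MoaStmt := fun _ _ _ F U =>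
  ⟨mo_det F U, mo_one F U, fun _ ha _ hb => mo_mul F U ha hb, fun _ ha => mo_inv F U ha⟩

/-- TUA -/
theorem tua (hH : HmnStmt) (hT : HtrStmt) (hK : KeaStmt) : TuaStmt := by
  intro d _ _ F
  obtain ⟨m0, h0⟩ := hH d F
  obtain ⟨m1, h1⟩ := hT d F
  obtain ⟨D, hD⟩ := exists_nat_ge (max 1 (max (m1 - m0) (-m0)))
  have hD1 : (1 : ℝ) ≤ D := (le_max_left _ _).trans hD
  have hD2 : m1 - m0 ≤ D := (le_max_left _ _).trans ((le_max_right _ _).trans hD)
  have hD3 : -m0 ≤ D := (le_max_right _ _).trans ((le_max_right _ _).trans hD)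
  refine ⟨D, fun ι _ κ hκ i g hg => ?_⟩
  obtain ⟨t, ht, hti, ht2, htj⟩ := hK d F ι κ i m0 g (h0 g hg)
  have hκi : (D : ℝ) ≤ κ i := by exact_mod_cast hκ.1 i
  refine ⟨t, ht, hti, ht2 (by linarith), fun j hj => ?_⟩
  have hij : i ≠ j := by
    rintro rfl
    exact lt_irrefl _ hj
  have h2 : D ≤ κ i - κ j := by
    rcases hκ.2 i j hij with h | h
    · exact h
    · have : κ j - κ i = 0 := Nat.sub_eq_zero_of_le hj.le
      rw [this, Nat.le_zero] at h
      rw [h]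
      exact Nat.zero_le _
  have h3 : (D : ℝ) ≤ (κ i : ℝ) - κ j := by
    rw [← Nat.cast_sub hj.le]
    exact_mod_cast h2
  have h4 : t.1 j ∈ F.mo {w | m1 < w.re} := by
    refine mo_mono F ?_ (htj j)
    intro w hw
    have hw' : m0 + κ i - κ j < w.re := hw
    show m1 < w.re
    linarith
  exact h1 _ h4

end Pool.Agent.MT100A.H97
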