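import Pool.Agent.MT100A.StmtsL
import Pool.Agent.Helper97_MTA.Moa

/-! MT100-A, module LAD, part 1: closed monoids are groups, automorphisms, normalisers. -/

set_option autoImplicit false
set_option linter.unusedSectionVars false

namespace Pool.Agent.MT100A.H97

open Matrix Polynomial Pool.Agent.MT100 Pool.Agent.MT100G Pool.Agent.Helper78_MT Pool.Agent.MTL
open Pool.Agent.MT100A.H78 Pool.Agent.Helper46_MT Pool.Agent.Helper3_MT

variable {d : Type} [Fintype d] [DecidableEq d] {M : Set (Matrix d d ℂ)}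

theorem zclosure_eq (T : Set (Matrix d d ℂ)) : zclosure ℂ ℂ T = zcl T := rfl

/-- closed monoids of invertible matrices are groups -/
theorem zcl_inv {T : Set (Matrix d d ℂ)} (hT : ∀ a ∈ T, ∀ b ∈ T, a * b ∈ T)
    (h1 : (1 : Matrix d d ℂ) ∈ T) {g : Matrix d d ℂ} (hg : g ∈ zcl T) : g⁻¹ ∈ zcl T := by
  have hgu : IsUnit g.det := hg.1
  have hpow : ∀ n : ℕ, g ^ n ∈ zcl T := by
    intro n
    induction n with
    | zero => rw [pow_zero]; exact ⟨by rw [det_one]; exact isUnit_one, fun _ hp => hp 1 h1⟩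
    | succ n ih => rw [pow_succ]; exact zcl_mul hT ih hg
  let J : ℕ → Ideal (MvPolynomial (d × d) ℂ) := fun n =>
    { carrier := {p | ∀ x ∈ zcl T, pev (g ^ n * x) p = 0}
      add_mem' := by
        intro p q hp hq x hx
        rw [map_add, hp x hx, hq x hx, add_zero]
      zero_mem' := by
        intro x _
        rw [map_zero]
      smul_mem' := by
        intro c p hp x hx
        rw [smul_eq_mul, map_mul, hp x hx, mul_zero] }
  have hJ : Monotone J := by
    refine monotone_nat_of_le_succ fun n => ?_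
    intro p hp x hx
    have h2 : g ^ (n + 1) * x = g ^ n * (g * x) := by rw [pow_succ, Matrix.mul_assoc]
    rw [h2]
    exact hp _ (zcl_mul hT hg hx)
  obtain ⟨n, hn⟩ := monotone_stabilizes_iff_noetherian.2
    (inferInstance : IsNoetherian (MvPolynomial (d × d) ℂ) (MvPolynomial (d × d) ℂ)) ⟨J, hJ⟩
  refine ⟨?_, fun p hp => ?_⟩
  · rw [det_nonsing_inv]
    exact hgu.ringInverse
  · have hp0 : ∀ x ∈ zcl T, pev x p = 0 := fun x hx => hx.2 p hp
    have h2 : lsub ((g ^ (n + 1))⁻¹) p ∈ J (n + 1) := by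
      intro x hx
      rw [pev_lsub, ← Matrix.mul_assoc, nonsing_inv_mul _ (hpow (n + 1)).1, Matrix.one_mul]
      exact hp0 x hx
    have h3 : lsub ((g ^ (n + 1))⁻¹) p ∈ J n := by
      have h4 : J n = J (n + 1) := hn (n + 1) (Nat.le_succ n)
      rw [h4]
      exact h2
    have h4 := h3 1 (by
      exact ⟨by rw [det_one]; exact isUnit_one, fun _ hp => hp 1 h1⟩)
    rw [pev_lsub, Matrix.mul_one] at h4
    have h5 : (g ^ (n + 1))⁻¹ * g ^ n = g⁻¹ := by
      have h6 : g ^ (n + 1) = g ^ n * g := pow_succ g n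
      rw [h6, Matrix.mul_inv_rev, Matrix.mul_assoc, nonsing_inv_mul _ (hpow n).1, Matrix.mul_one]
    rwa [h5] at h4

/-- the elements which normalise the span of the unipotents, infinitesimally -/
theorem norm_in (hnd : ∀ X ∈ UP M, (∀ Y ∈ UP M, (X * Y).trace = 0) → X = 0)
    (hM : ∀ a ∈ M, ∀ b ∈ M, a * b ∈ M) (hA : AbsIrr M) {D : Matrix d d ℂ}
    (hD : ∀ A ∈ UP M, D * A - A * D ∈ UP M) :
    ∃ u ∈ UP M, ∃ c : ℂ, D = u + c • (1 : Matrix d d ℂ) := by
  obtain ⟨u, hu, htr⟩ := UP_proj hnd D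
  obtain ⟨c, hc⟩ := hA (D - u) (by
    intro X hX hXs
    have hXU : X ∈ UP M := Submodule.subset_span ⟨hX, hXs⟩
    have h3 : (D - u) * X - X * (D - u) ∈ UP M := by
      have h4 : (D - u) * X - X * (D - u) = (D * X - X * D) - (u * X - X * u) := by
        rw [sub_mul, mul_sub]; abel
      rw [h4]
      exact Submodule.sub_mem _ (hD X hXU) (UP_br hM hu hXU)
    have h4 := hnd _ h3 (by
      intro Y hY
      have h5 : ∀ D : Matrix d d ℂ, ((D * X - X * D) * Y).trace =
          (D * (X * Y - Y * X)).trace := by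
        intro D
        rw [sub_mul, trace_sub, mul_sub, trace_sub, Matrix.mul_assoc D X Y, Matrix.mul_assoc X D Y,
          trace_mul_comm X (D * Y), Matrix.mul_assoc D Y X]
      have h6 := htr _ (UP_br hM hXU hY)
      rw [h5, sub_mul, trace_sub, h6, sub_self])
    exact sub_eq_zero.mp h4)
  exact ⟨u, hu, c, by rw [← hc, add_sub_cancel]⟩

theorem ue_smul (X : Matrix d d ℂ) (s t : ℂ) : ue (s • X) t = ue X (t * s) := by
  unfold ue
  apply Finset.sum_congr rfl
  intro k _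
  rw [_root_.smul_pow, smul_smul, mul_pow, mul_assoc]

/-- the elements of a unipotent one parameter subgroup -/
theorem uni_of_nilP {X : Matrix d d ℂ} (hX : X ∈ nilP M) (s : ℂ) : ue X s ∈ Uni M := by
  refine ⟨s • X, nil_smul hX.1 s, ?_, fun t => ?_⟩
  · rw [ue_smul, one_mul]
  · rw [ue_smul]
    exact hX.2 _

theorem UP_lie {G : Set (Matrix d d ℂ)} (hmul : ∀ a ∈ G, ∀ b ∈ G, a * b ∈ G)
    (hun : ∀ u ∈ Uni M, u ∈ G) : UP M ≤ lieOf G := by
  unfold UP
  rw [Submodule.span_le]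
  intro X hX
  apply nil_lie hmul hX.1
  intro s
  exact hun _ (uni_of_nilP hX s)

theorem UP_trace {X : Matrix d d ℂ} (hX : X ∈ UP M) : X.trace = 0 := by
  induction hX using Submodule.span_induction with
  | mem X hX => exact (isNilpotent_trace_of_isNilpotent hX.1).eq_zero
  | zero => exact trace_zero _ _
  | add X Y _ _ h1 h2 => rw [trace_add, h1, h2, add_zero]
  | smul c X _ h1 => rw [trace_smul, h1, smul_zero]

/-- determinants of unipotents -/
theorem det_uni {u : Matrix d d ℂ} (hu : u ∈ Uni M) : u.det = 1 := by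
  obtain ⟨X, hX, rfl, hs⟩ := hu
  have hpoly : ∃ q : ℂ[X], ∀ s : ℂ, q.eval s = (ue X s).det := by
    let A : Matrix d d ℂ[X] := fun i j => ∑ k ∈ Finset.range (Fintype.card d),
      C ((k.factorial : ℂ)⁻¹ * (X ^ k) i j) * Polynomial.X ^ k
    refine ⟨A.det, fun s => ?_⟩
    have h1 : A.map (Polynomial.eval s) = ue X s := by
      ext i j
      rw [Matrix.map_apply]
      unfold ue
      rw [Matrix.sum_apply, Polynomial.eval_finsetSum]
      apply Finset.sum_congr rfl
      intro k _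
      rw [eval_mul, eval_C, eval_pow, eval_X, Matrix.smul_apply, smul_eq_mul]
      ring
    rw [← h1]
    exact RingHom.map_det (Polynomial.evalRingHom s) A
  obtain ⟨q, hq⟩ := hpoly
  have hne : ∀ s : ℂ, q.eval s ≠ 0 := by
    intro s h0
    have h1 := congrArg Matrix.det (ue_inv hX s)
    rw [det_mul, det_one, ← hq s, h0, zero_mul] at h1
    exact zero_ne_one h1
  have hdeg : q.degree = 0 := by
    by_contra hdeg
    obtain ⟨s, hs⟩ := IsAlgClosed.exists_root q hdeg
    exact hne s hs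
  rw [← hq 1, Polynomial.eq_C_of_degree_eq_zero hdeg, eval_C]
  have h2 := hq 0
  rw [ue_z hX, det_one, Polynomial.eq_C_of_degree_eq_zero hdeg, eval_C] at h2
  exact h2

/-! ### Automorphisms of `ℂ` -/

theorem ue_aut (τ : ℂ ≃+* ℂ) (X : Matrix d d ℂ) (s : ℂ) :
    (ue X s).map τ = ue (X.map τ) (τ s) := by
  have h1 : ∀ k : ℕ, (X.map τ) ^ k = (X ^ k).map τ := by
    intro k
    have := (map_pow (τ : ℂ →+* ℂ).mapMatrix X k).symm
    rwa [RingHom.mapMatrix_apply, RingHom.mapMatrix_apply] at this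
  unfold ue
  ext i j
  rw [Matrix.map_apply, Matrix.sum_apply, Matrix.sum_apply, map_sum]
  apply Finset.sum_congr rfl
  intro k _
  rw [h1, Matrix.smul_apply, Matrix.smul_apply, Matrix.map_apply, smul_eq_mul, smul_eq_mul, map_mul,
    map_mul, map_pow, map_inv₀, map_natCast]

theorem zc_aut {M : Set (Matrix d d ℂ)} (hr : ∀ τ : ℂ ≃+* ℂ, ∀ γ ∈ M, γ.map τ = γ) (τ : ℂ ≃+* ℂ)
    {A : Matrix d d ℂ} (hA : A ∈ zclosure ℂ ℂ M) : A.map τ ∈ zclosure ℂ ℂ M := by
  refine ⟨?_, fun p hp => ?_⟩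
  · have h3 := hA.1.map (τ : ℂ →+* ℂ)
    rw [RingHom.map_det, RingHom.mapMatrix_apply] at h3
    exact h3
  · obtain ⟨q, hq⟩ : ∃ q, q = MvPolynomial.map (τ.symm : ℂ →+* ℂ) p := ⟨_, rfl⟩
    have hpq : p = MvPolynomial.map (τ : ℂ →+* ℂ) q := by rw [hq, map_symm_map]
    have hq0 : ∀ γ ∈ M, pev γ q = 0 := by
      intro γ hγ
      have h1 := pev_twist τ γ q
      rw [← hpq, hr τ γ hγ, hp γ hγ] at h1
      exact (map_eq_zero_iff τ τ.injective).1 h1.symm
    have h1 := pev_twist τ A q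
    rw [← hpq, hA.2 q hq0, map_zero] at h1
    exact h1

theorem Uni_aut {M : Set (Matrix d d ℂ)} (hr : ∀ τ : ℂ ≃+* ℂ, ∀ γ ∈ M, γ.map τ = γ) (τ : ℂ ≃+* ℂ)
    {u : Matrix d d ℂ} (hu : u ∈ Uni M) : u.map τ ∈ Uni M := by
  obtain ⟨X, hX, rfl, hs⟩ := hu
  refine ⟨X.map τ, ?_, ?_, fun s => ?_⟩
  · obtain ⟨k, hk⟩ := hX
    refine ⟨k, ?_⟩
    have := (map_pow (τ : ℂ →+* ℂ).mapMatrix X k).symm
    rw [RingHom.mapMatrix_apply, hk, map_zero] at this
    exact this
  · rw [ue_aut, map_one]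
  · have h1 := zc_aut hr τ (hs (τ.symm s))
    rwa [ue_aut, RingEquiv.apply_symm_apply] at h1

end Pool.Agent.MT100A.H97
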