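import Pool.Agent.Helper97_MTA.Moa
import Pool.Agent.Helper97_MTG.Main
import Pool.Agent.Helper46_MT.Final

/-! MT100-A, module MAA: assembly of the main theorem. -/

set_option autoImplicit false

namespace Pool.Agent.MT100A.H97

open Matrix Polynomial Pool.Agent.MT100 Pool.Agent.MT100G Pool.Agent.Helper78_MT

universe u v

/-- GRP -/
theorem grp : GrpStmt.{u} := by
  intro d _ _ w E V hw hV F P hU
  obtain ⟨π, hπ, h1, h2, h3⟩ := Helper46_MT.proj_of hV
  have hGm : ∀ (K : Type u) [Field K] [CharZero K], F.Gm P K ⊆ mtGroup w V K := by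
    intro K _ _ M hM I hI hT
    refine hM I hI (fun c hc => ?_) fun u hu => hU u hu I hI hT
    exact Helper46_MT.scal_mem hπ hw (fun z hz0 => hT _ (Helper46_MT.hz_torus hπ h2 hz0)) hc
  refine ⟨hGm, fun hT K _ _ => Set.Subset.antisymm ?_ (hGm K)⟩
  intro M hM I hI hc hu
  exact hM I hI fun T hT' => hT hT' I hI hc hu

section iso
variable {n : Type*} [Fintype n] [DecidableEq n] {K : Type*} [Field K]

/-- the equations of the isometries -/
noncomputable def iso (E : Matrix n n K) (i j : n) : MvPolynomial (n × n) K :=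
  (∑ k, ∑ l, E k l • (MvPolynomial.X (k, i) * MvPolynomial.X (l, j))) - MvPolynomial.C (E i j)

theorem pev_iso (E : Matrix n n K) (i j : n) (g : Matrix n n K) :
    pev g (iso E i j) = (gᵀ * E * g) i j - E i j := by
  unfold iso
  rw [map_sub, pev_C, map_sum]
  congr 1
  rw [mul_assoc, Matrix.mul_apply]
  apply Finset.sum_congr rfl
  intro k _
  rw [map_sum, Matrix.mul_apply, Finset.mul_sum]
  apply Finset.sum_congr rfl
  intro l _
  rw [map_smul, map_mul, pev_X, pev_X, transpose_apply, smul_eq_mul]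
  ring

theorem iso_zclosure {E : Matrix n n K} {M : Set (Matrix n n K)}
    (h : ∀ γ ∈ M, γᵀ * E * γ = E) {g : Matrix n n K} (hg : g ∈ zclosure K K M) :
    gᵀ * E * g = E := by
  ext i j
  have h2 := hg.2 (iso E i j) (fun t ht => by rw [pev_iso, h t ht, sub_self])
  rw [pev_iso] at h2
  exact sub_eq_zero.1 h2

end iso

variable {d : Type} [Fintype d] [DecidableEq d]

omit [DecidableEq d] in
/-- the transformed form, evaluated -/
theorem tA_eval {k : ℕ} {R : Type} [CommRing R] (t : (Fin k → d) → R) (A : Matrix d d R)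
    (x : Fin k → d → R) :
    ∑ α, tA t A α * ∏ j, x j (α j) = ∑ β, t β * ∏ j, (A *ᵥ x j) (β j) := by
  unfold tA
  simp only [Finset.sum_mul]
  rw [Finset.sum_comm]
  refine Finset.sum_congr rfl fun β _ => ?_
  have h1 : ∏ j, (A *ᵥ x j) (β j) = ∑ α : Fin k → d, ∏ j, (A (β j) (α j) * x j (α j)) := by
    have h2 : ∀ j, (A *ᵥ x j) (β j) = ∑ i, A (β j) i * x j i := fun j => rfl
    simp only [h2]
    rw [Finset.prod_univ_sum, Fintype.piFinset_univ]
  rw [h1, Finset.mul_sum]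
  refine Finset.sum_congr rfl fun α _ => ?_
  rw [Finset.prod_mul_distrib]
  ring

/-- the rows of `YH * g` in the rational structure -/
theorem per_act (F : Sys d) {P : Matrix d d ℂ} (hP : IsUnit P.det) (g : Matrix d d ℂ) (w : ℂ)
    (a : d) : P *ᵥ (YH F.H F.N w * g) a = (P * gᵀ * P⁻¹) *ᵥ F.per P w a := by
  have h1 : (YH F.H F.N w * g) a = gᵀ *ᵥ YH F.H F.N w a := by
    rw [Matrix.mulVec_transpose]
    rfl
  unfold Sys.per
  rw [h1, Matrix.mulVec_mulVec, Matrix.mulVec_mulVec, Matrix.mul_assoc,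
    Matrix.nonsing_inv_mul _ hP, Matrix.mul_one]

theorem zc_sub (F : Sys d) : F.mo Set.univ ⊆ F.Zc := fun g hg =>
  ⟨mo_det F Set.univ g hg, fun _ hp => hp g hg⟩

/-- MAA -/
theorem maa (hE : ElaStmt) (hT : TenStmt) (hU : TeuStmt) (hL : LieStmt) :
    MainAStmt.{u, v} := by
  intro d _ _ F w lev hw
  set A : Set (Fin 4 → d) := {a | 2 * w < ∑ j, lev (a j)} with hA
  obtain ⟨C, n1, h⟩ := hE d F 4 A
  refine ⟨C, n1, fun P hP hInt => ?_⟩
  set S : Set ℕ := {n | ∃ t : (Fin 4 → d) → ℚ,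
      (∀ a ∈ A, ∑ β, (t β : ℂ) * ∏ j, F.per P n (a j) (β j) = 0) ∧
      ∃ g ∈ F.Zc, ∃ a ∈ A,
        ∑ β, (t β : ℂ) * ∏ j, (P *ᵥ (YH F.H F.N n * g) (a j)) (β j) ≠ 0} with hS
  obtain ⟨hwin, hden⟩ := h P hP S fun n hn => hn
  refine ⟨S, hden, hwin, fun n hn E V hV hInv hFil => ?_⟩
  have hfil : ∀ (t : (Fin 4 → d) → ℚ), (∀ (p : Fin 4 → ℕ) (x : Fin 4 → d → ℂ),
      (∀ j, x j ∈ V (p j)) → 2 * w < ∑ j, p j → ∑ β, (t β : ℂ) * ∏ j, x j (β j) = 0) →
      ∀ g ∈ F.Zc, ∀ (p : Fin 4 → ℕ) (x : Fin 4 → d → ℂ), (∀ j, x j ∈ V (p j)) →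
        2 * w < ∑ j, p j →
        ∑ β, (t β : ℂ) * ∏ j, ((P * gᵀ * P⁻¹) *ᵥ x j) (β j) = 0 := by
    intro t ht g hg p x hx hp
    have hker : ∀ a ∈ A, ∑ β, (t β : ℂ) * ∏ j, F.per P n (a j) (β j) = 0 := by
      intro a ha
      refine MT100G.H97.frm_fil t V w ht (fun j => lev (a j)) ha (fun j => F.per P n (a j)) ?_
      intro j
      rw [hFil (lev (a j))]
      exact Submodule.subset_span ⟨a j, le_refl _, rfl⟩
    refine MT100G.H97.frm_span t (P * gᵀ * P⁻¹)
      (fun j => {y | ∃ a : d, p j ≤ lev a ∧ y = F.per P n a}) ?_ x ?_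
    · intro y hy
      choose a ha hya using hy
      have h2 : ∑ β, (t β : ℂ) * ∏ j, (P *ᵥ (YH F.H F.N n * g) (a j)) (β j) = 0 := by
        by_contra hne
        refine hn ⟨t, hker, g, hg, a, ?_, hne⟩
        exact lt_of_lt_of_le hp (Finset.sum_le_sum fun j _ => ha j)
      unfold MT100G.H97.frm
      rw [← h2]
      refine Finset.sum_congr rfl fun β _ => ?_
      congr 1
      refine Finset.prod_congr rfl fun j _ => ?_
      show ((P * gᵀ * P⁻¹) *ᵥ y j) (β j) = _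
      rw [hya j, per_act F hP]
    · intro j
      show x j ∈ Submodule.span ℂ {y | ∃ a : d, p j ≤ lev a ∧ y = F.per P n a}
      rw [← hFil (p j)]
      refine (?_ : V (p j) ≤ _) (hx j)
      exact le_iSup₂_of_le (p j) (Set.mem_Ici.2 (le_refl _)) (le_refl _)
  -- the Mumford-Tate group contains the unipotents
  have hUni : ∀ u ∈ Uni (F.Mo P), u ∈ mtGroup w V ℂ := by
    rintro u ⟨X, hX, rfl, hcl⟩
    refine hL d w E V hw hV X hX (fun s => iso_zclosure hInv (hcl s)) ?_ 1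
    intro t ht s
    refine hU d (F.Mo P) 4 (fun β => (t β : ℂ)) ?_ X hX hcl s
    set M : Set (Matrix d d ℤ) := {A | A.map (fun x => (x : ℂ)) ∈ F.Mo P} with hM
    have hfin := hT d w E V hw hV 4 M ?_ t ?_
    · refine (hfin.image fun s β => ((s β : ℚ) : ℂ)).subset ?_
      rintro s ⟨γ, hγ, rfl⟩
      obtain ⟨B, hB⟩ := hInt γ hγ
      refine ⟨_, ⟨B, by rw [hM]; show _ ∈ F.Mo P; rw [← hB]; exact hγ, rfl⟩, ?_⟩
      funext α
      show ((tA t (B.map (fun x => (x : ℚ))) α : ℚ) : ℂ) = tA (fun β => (t β : ℂ)) γ α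
      unfold tA
      rw [hB]
      push_cast
      rfl
    · intro B hB
      have h1 := hInv _ hB
      apply Matrix.map_injective (algebraMap ℚ ℂ).injective
      simp only
      rw [Matrix.map_mul, Matrix.map_mul, ← Matrix.transpose_map]
      have h2 : (B.map (fun x => (x : ℚ))).map (algebraMap ℚ ℂ) = B.map (fun x => (x : ℂ)) := by
        ext i j
        simp
      rw [h2]
      exact h1
    · intro B hB p x hx hp
      obtain ⟨g, hg, hγ⟩ := hB
      have h1 := hfil t (fun p x hx hp => ht p x hx (by omega)) g (zc_sub F hg) p x hx (by omega)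
      rw [← hγ] at h1
      exact h1
  obtain ⟨h1, h2⟩ := grp.{u} d w E V hw hV F P hUni
  refine ⟨h1, fun hT' => ⟨h2 hT', ?_⟩⟩
  intro ℓ _ Γ _ ρ K _ _ _ hρ
  rw [hρ, h2 hT' K]

end Pool.Agent.MT100A.H97
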