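import Pool.Agent.Helper97_MTA.Lag

/-! MT100-A, module LAD for families of the first kind, part 4: the theorems. -/

set_option autoImplicit false
set_option linter.unusedSectionVars false

namespace Pool.Agent.MT100A.H97

open Matrix Polynomial Pool.Agent.MT100 Pool.Agent.MT100G Pool.Agent.Helper78_MT Pool.Agent.MTL
open Pool.Agent.MT100A.H78 Pool.Agent.Helper46_MT Pool.Agent.Helper3_MT

universe u

variable {d : Type} [Fintype d] [DecidableEq d] {M : Set (Matrix d d ℂ)} {w : ℕ}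
  {E : Matrix d d ℚ} {π : ℕ → Matrix d d ℂ} {V : ℕ → Submodule ℂ (d → ℂ)}

/-- the generator of the torus commutes with the commutant -/
theorem phi_comm (hπ : Proj w E π) (h2 : ∀ p, ∀ x ∈ V p, π p *ᵥ x = x) (hT : TorusIn w V M) :
    ∀ B ∈ Cmt M, Phi w π * B = B * Phi w π := by
  intro B hB
  have hz : ∀ z : ℂ, z ≠ 0 → Tc w π (z / starRingEnd ℂ z) * B = B * Tc w π (z / starRingEnd ℂ z) := by
    intro z hz0
    have hc : starRingEnd ℂ z ≠ 0 := (_root_.map_ne_zero _).2 hz0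
    have h3 := hT.2 _ (hz_torus hπ h2 hz0) B hB
    rw [hz_eq hz0, smul_mul_assoc, mul_smul_comm] at h3
    have := congrArg (fun y => ((starRingEnd ℂ z) ^ w)⁻¹ • y) h3
    simpa only [smul_smul, inv_mul_cancel₀ (pow_ne_zero _ hc), one_smul] using this
  have key : ∀ p ∈ Finset.range (w + 1), π p * B - B * π p = 0 := by
    intro p hp
    ext i j
    obtain ⟨Q, hQ⟩ : ∃ Q : ℂ[X], Q = ∑ q ∈ Finset.range (w + 1),
        C ((π q * B - B * π q) i j) * Polynomial.X ^ q := ⟨_, rfl⟩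
    have hQe : ∀ t : ℂ, Q.eval t = (Tc w π t * B - B * Tc w π t) i j := by
      intro t
      rw [hQ]
      unfold Tc
      rw [Finset.sum_mul, Finset.mul_sum, ← Finset.sum_sub_distrib, Matrix.sum_apply,
        Polynomial.eval_finsetSum]
      apply Finset.sum_congr rfl
      intro q _
      rw [Polynomial.eval_mul, Polynomial.eval_C, Polynomial.eval_pow, Polynomial.eval_X,
        smul_mul_assoc, mul_smul_comm, ← smul_sub, Matrix.smul_apply, smul_eq_mul, mul_comm]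
    have hQ0 : Q = 0 := by
      apply Polynomial.eq_zero_of_infinite_isRoot
      apply Set.infinite_of_injective_forall_mem inj_cayley
      intro k
      change Polynomial.eval _ _ = 0
      have hz0 : (1 + (k : ℂ) * Complex.I) ≠ 0 := by
        intro hk
        have := congrArg Complex.re hk
        simp at this
      rw [hQe, hz _ hz0, sub_self, Matrix.zero_apply]
    have h3 := congrArg (fun P => Polynomial.coeff P p) hQ0
    rw [hQ] at h3
    simp only [Polynomial.finsetSum_coeff, Polynomial.coeff_C_mul_X_pow, Polynomial.coeff_zero] at h3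
    rw [Finset.sum_ite_eq, if_pos hp] at h3
    rw [h3, Matrix.zero_apply]
  unfold Phi
  rw [Finset.sum_mul, Finset.mul_sum]
  apply Finset.sum_congr rfl
  intro p hp
  rw [smul_mul_assoc, mul_smul_comm, sub_eq_zero.1 (key p hp)]

/-- the generator of the torus is an infinitesimal similitude -/
theorem phi_form (hπ : Proj w E π) : (Phi w π)ᵀ * E.map (algebraMap ℚ ℂ) +
    E.map (algebraMap ℚ ℂ) * Phi w π = (w : ℂ) • E.map (algebraMap ℚ ℂ) := by
  have e1 : (Phi w π)ᵀ * E.map (algebraMap ℚ ℂ) = ∑ p ∈ Finset.range (w + 1), ((p : ℂ) * 1) •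
      ((π p)ᵀ * E.map (algebraMap ℚ ℂ) * π (w - p)) := by
    rw [← hπ.form (fun p => (p : ℂ)) (fun _ => 1)]
    simp only [one_smul]
    rw [hπ.sum, mul_one]
    rfl
  have e2 : E.map (algebraMap ℚ ℂ) * Phi w π = ∑ p ∈ Finset.range (w + 1),
      (1 * ((w - p : ℕ) : ℂ)) • ((π p)ᵀ * E.map (algebraMap ℚ ℂ) * π (w - p)) := by
    rw [← hπ.form (fun _ => 1) (fun p => (p : ℂ))]
    simp only [one_smul]
    rw [hπ.sum, transpose_one, one_mul]
    rfl
  rw [e1, e2, ← Finset.sum_add_distrib]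
  conv_rhs => rw [hπ.form_one]
  rw [Finset.smul_sum]
  apply Finset.sum_congr rfl
  intro p hp
  have hp' := Nat.lt_succ_iff.1 (Finset.mem_range.1 hp)
  rw [← add_smul]
  congr 1
  push_cast [Nat.cast_sub hp']
  ring

/-- the Deligne torus is in `Gm` for families of the first kind -/
theorem irr_fk (F : Sys d) {P : Matrix d d ℂ} (hP : IsUnit P.det) (hint : F.IntM P)
    (hV : PolHodge w E V) (hinv : F.InvM P E) (hFK : FirstKind E (F.Mo P))
    (hT : TorusIn w V (F.Mo P)) : hodgeTorus w V ⊆ F.Gm P ℂ := by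
  have hM := Mo_mul moa F hP
  obtain ⟨π, hπ, h1, h2, h3⟩ := proj_of hV
  have hrs : ∀ γ ∈ F.Mo P, γ.map (starRingEnd ℂ) = γ := by
    intro γ hγ
    obtain ⟨A, rfl⟩ := hint γ hγ
    ext i j
    simp
  obtain ⟨u, hu, c, hc⟩ := norm_fk (fun X hX hX0 => UP_nd hV hπ h1 h2 hT.1 hrs hinv hX hX0) hM hinv
    hFK (fun A hA => UP_phi hT.1 hπ h2 hA) (phi_comm hπ h2 hT) ⟨w, phi_form hπ⟩
  intro T hTT I hI hsc hun
  have hL : Phi w π ∈ lieOf (zeros I ℂ) := by
    rw [hc]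
    exact Submodule.add_mem _ (UP_lie hI.2.1 hun hu) (Submodule.smul_mem _ _ (one_lie hI.2.1 hsc))
  have hTc : ∀ t : ℂ, t ≠ 0 → Tc w π t ∈ zeros I ℂ := by
    intro t ht
    refine ⟨hπ.Tc_unit ht, fun p hp => ?_⟩
    have h4 := Tc_of_lie hI.1 hπ hL t (MvPolynomial.map (algebraMap ℚ ℂ) p) (by
      intro g hg
      rw [pevC]
      exact hg.2 p hp)
    rwa [pevC] at h4
  obtain ⟨z, hz0, hTz⟩ := hTT
  have hTe : T = hz w π z := by
    apply Helper46_MT.ind hV.span hV.top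
    intro p hp x hx
    rw [hTz p hp x hx]
    unfold hz
    conv_rhs => rw [← h2 p x hx]
    rw [mulVec_mulVec, hπ.mul_sum (fun p => z ^ p * (starRingEnd ℂ z) ^ (w - p)) hp, smul_mulVec,
      h2 p x hx]
    rfl
  have hc0 : starRingEnd ℂ z ≠ 0 := (_root_.map_ne_zero _).2 hz0
  rw [hTe, hz_eq hz0]
  have h5 := hI.2.1 _ (hsc _ (pow_ne_zero w hc0)) _ (hTc _ (div_ne_zero hz0 hc0))
  rwa [Matrix.smul_mul, one_mul] at h5

/-- LAD for families of the first kind -/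
theorem lad_fk (h1 : NeaStmt) (h2 : JorStmt) (h3 : LogStmt) (h4 : CurStmt) (h5 : DesStmt)
    (F : Sys d) {P : Matrix d d ℂ} (hP : IsUnit P.det) (hI : F.IntM P)
    (hV : PolHodge w E V) (hE : F.InvM P E) (hFK : FirstKind E (F.Mo P))
    (hT : TorusIn w V (F.Mo P)) {ℓ : ℕ} [Fact ℓ.Prime] {Γ : Type} [Group Γ] [TopologicalSpace Γ]
    [IsTopologicalGroup Γ] [CompactSpace Γ] {ρ : Γ →* GL d ℚ_[ℓ]} (hρ : Continuous ρ)
    (hgeo : F.GeoE P E ρ) (K : Type u) [Field K] [CharZero K] [Algebra ℚ_[ℓ] K] :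
    monodromy ρ K = F.Gm P K := by
  obtain ⟨ι, hg1, ⟨Γc, hc, hg4⟩, hg2, hg3⟩ := hgeo
  obtain ⟨π, hπ, hp1, hp2, hp3⟩ := proj_of hV
  have hr : ∀ τ : ℂ ≃+* ℂ, ∀ γ ∈ F.Mo P, γ.map τ = γ := by
    intro τ γ hγ
    obtain ⟨A, rfl⟩ := hI γ hγ
    ext i j
    simp
  have hrs : ∀ γ ∈ F.Mo P, γ.map (starRingEnd ℂ) = γ := by
    intro γ hγ
    obtain ⟨A, rfl⟩ := hI γ hγ
    ext i j
    simp
  have hnd : ∀ X ∈ UP (F.Mo P), (∀ Y ∈ UP (F.Mo P), (X * Y).trace = 0) → X = 0 := fun X hX hX0 =>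
    UP_nd hV hπ hp1 hp2 hT.1 hrs hE hX hX0
  have hM := Mo_mul moa F hP
  have hW : ∀ γ : Γ, ∀ A ∈ UP (F.Mo P), (ρ γ : Matrix d d ℚ_[ℓ]).map ι * A *
      ((ρ γ : Matrix d d ℚ_[ℓ]).map ι)⁻¹ ∈ UP (F.Mo P) := by
    intro γ A hA
    induction hA using Submodule.span_induction with
    | mem X hX => exact Submodule.subset_span ((hg1 γ).1 X hX)
    | zero =>
      rw [mul_zero, zero_mul]
      exact Submodule.zero_mem _
    | add X Y _ _ h3 h4 =>
      rw [mul_add, add_mul]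
      exact Submodule.add_mem _ h3 h4
    | smul c X _ h3 =>
      rw [Matrix.mul_smul, Matrix.smul_mul]
      exact Submodule.smul_mem _ _ h3
  have hFu : IsUnit (E.map (algebraMap ℚ ℂ)).det := det_map (det_ne hV)
  have hFt : (E.map (algebraMap ℚ ℂ))ᵀ = ((-1 : ℂ) ^ w) • E.map (algebraMap ℚ ℂ) := by
    have h6 := congrArg (fun X : Matrix d d ℚ => X.map (algebraMap ℚ ℂ)) hV.symm
    rw [← Matrix.transpose_map]
    rw [h6]
    ext i j
    simp
  have hη : ((-1 : ℂ) ^ w) * (-1 : ℂ) ^ w = 1 := by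
    rw [← mul_pow]
    norm_num
  have hnorm : ∀ γ ∈ Γc, ∀ D : Matrix d d ℂ, AdS ((ρ γ : Matrix d d ℚ_[ℓ]).map ι) D →
      ∃ u ∈ UP (F.Mo P), ∃ c : ℂ, D = u + c • (1 : Matrix d d ℂ) := by
    intro γ hγ D hD
    have hu : IsUnit ((ρ γ : Matrix d d ℚ_[ℓ]).map ι).det := by
      have h8 := ((isUnit_iff_isUnit_det _).1 (ρ γ).isUnit).map ι
      rwa [RingHom.map_det, RingHom.mapMatrix_apply] at h8
    obtain ⟨χ, hχ⟩ := (hg1 γ).2
    exact norm_fk hnd hM hE hFK (hD (UP (F.Mo P)) (hW γ))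
      (fun B hB => ads_comm hu hD (hg4 γ hγ B hB)) (ads_form hη hu hFu hFt hD hχ)
  refine Set.Subset.antisymm ?_ ?_
  · intro x hx
    exact lad_le' h1 h2 h3 h4 F hρ ι hc hnorm hx
  · intro x hx
    exact lad_ge' h1 h2 h3 h4 h5 F hr hρ ι hc hnorm hg2 hg3 hx

end Pool.Agent.MT100A.H97
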