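import Pool.Agent.Helper97_MTA.Ass
import Pool.Agent.Helper64_MTA.Lie
import Pool.Agent.Helper81_MTA.Hmn
import Pool.Agent.Helper78_MTA.Irr
import Pool.Agent.MTL.All

/-! MT100-A: the final form, with specialisation of the Galois representations. -/

set_option autoImplicit false

namespace Pool.Agent.MT100A

open Matrix Polynomial Pool.Agent.MT100 Pool.Agent.MT100G Pool.Agent.Helper78_MT Pool.Agent.MTL

variable {d : Type} [Fintype d] [DecidableEq d]

/-- The `K`-points of the smallest algebraic subgroup over `ℚ` of `GL` which contains the Deligne torus of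
`V` and the unipotent one parameter subgroups of the Zariski closure of the monodromy group. -/
def Sys.Gen (F : Sys d) (P : Matrix d d ℂ) (w : ℕ) (V : ℕ → Submodule ℂ (d → ℂ)) (K : Type*)
    [Field K] [CharZero K] : Set (Matrix d d K) :=
  {M | ∀ I : Set (MvPolynomial (d × d) ℚ), IsAlgSubgroup I → hodgeTorus w V ⊆ zeros I ℂ →
    (∀ u ∈ Uni (F.Mo P), u ∈ zeros I ℂ) → M ∈ zeros I K}

/-- The Deligne torus of `V` is contained in `Gm`; or the unipotent one parameter subgroups of the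
Zariski closure of the monodromy group act absolutely irreducibly and the Deligne torus normalises
them. -/
def Sys.Tor (F : Sys d) (P : Matrix d d ℂ) (w : ℕ) (V : ℕ → Submodule ℂ (d → ℂ)) : Prop :=
  hodgeTorus w V ⊆ F.Gm P ℂ ∨ (H78.AbsIrr (F.Mo P) ∧ H78.TorusNorm w V (F.Mo P))

namespace H97

universe u

/-- the homotheties are in the smallest group which contains the Deligne torus -/
theorem gen_eq (F : Sys d) {P : Matrix d d ℂ} (hP : IsUnit P.det) (hI : F.IntM P) {w : ℕ}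
    (hw : 1 ≤ w) {E : Matrix d d ℚ} {V : ℕ → Submodule ℂ (d → ℂ)} (hV : PolHodge w E V)
    (hE : F.InvM P E) (hT : F.Tor P w V) (K : Type u) [Field K] [CharZero K] :
    F.Gen P w V K = F.Gm P K := by
  obtain ⟨π, hπ, h1, h2, h3⟩ := Helper46_MT.proj_of hV
  have hT' : hodgeTorus w V ⊆ F.Gm P ℂ := by
    rcases hT with h | ⟨ha, hn⟩
    · exact h
    · exact H78.irr moa F hP hI hV hE ha hn
  refine Set.Subset.antisymm ?_ ?_
  · intro M hM I hI hc hu
    exact hM I hI (fun T hT => hT' hT I hI hc hu) hu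
  · intro M hM I hI hT hu
    exact hM I hI (fun c hc => Helper46_MT.scal_mem hπ hw
      (fun z hz0 => hT (Helper46_MT.hz_torus hπ h2 hz0)) hc) hu

/-- the final form -/
theorem fin (d : Type) [Fintype d] [DecidableEq d] (F : Sys d) (w : ℕ) (lev : d → ℕ)
    (hw : 1 ≤ w) :
    ∃ (C : ℕ) (n1 : ℕ → ℕ), ∀ P : Matrix d d ℂ, IsUnit P.det → F.IntM P →
      (∀ (E : Matrix d d ℚ) (V : ℕ → Submodule ℂ (d → ℂ)), PolHodge w E V → F.InvM P E →
        F.Tor P w V → ∀ (K : Type u) [Field K] [CharZero K], F.Gen P w V K = F.Gm P K) ∧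
      ∃ S : Set ℕ, DensZero S ∧
        (∀ K n : ℕ, n1 K ≤ n → Nat.card {m : ℕ // m ∈ S ∧ n < m + K ∧ m ≤ n} ≤ C) ∧
        (∀ n : ℕ, n ∉ S → ∀ (E : Matrix d d ℚ) (V : ℕ → Submodule ℂ (d → ℂ)),
          PolHodge w E V → F.InvM P E → F.HasFil lev P n V →
          ∀ (K : Type u) [Field K] [CharZero K], mtGroup w V K = F.Gen P w V K) ∧
        ∀ (ℓ : ℕ) [Fact ℓ.Prime] (ρ : GT →* GL d ℚ_[ℓ]), Continuous ρ →
          ∃ T : Set ℕ, DensZero T ∧ ∀ n : ℕ, n ∉ S → n ∉ T →
            ∀ (E : Matrix d d ℚ) (V : ℕ → Submodule ℂ (d → ℂ)),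
            PolHodge w E V → F.InvM P E → F.HasFil lev P n V →
            ∀ ρn : GQ →* GL d ℚ_[ℓ], Specializes ρ n ρn →
            ∀ (K : Type u) [Field K] [CharZero K] [Algebra ℚ_[ℓ] K],
              (monodromy ρn K = mtGroup w V K ↔ monodromy ρ K = F.Gen P w V K) := by
  obtain ⟨C, n1, h⟩ := mainA.{0, 0} H81.hmn H64.lie d F w lev hw
  refine ⟨C, n1, fun P hP hI => ⟨fun E V hV hE hT K _ _ =>
    gen_eq F hP hI hw hV hE hT K, ?_⟩⟩
  obtain ⟨S, hS, hwin, h2⟩ := h P hP hI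
  have key : ∀ n : ℕ, n ∉ S → ∀ (E : Matrix d d ℚ) (V : ℕ → Submodule ℂ (d → ℂ)),
      PolHodge w E V → F.InvM P E → F.HasFil lev P n V →
      ∀ (K : Type u) [Field K] [CharZero K], mtGroup w V K = F.Gen P w V K := by
    intro n hn E V hV hE hF K _ _
    have hU : ∀ u ∈ Uni (F.Mo P), u ∈ mtGroup w V ℂ := fun u hu =>
      (h2 n hn E V hV hE hF).1 ℂ fun I _ _ hI => hI u hu
    refine Set.Subset.antisymm ?_ ?_
    · intro M hM I hI hT _
      exact hM I hI hT
    · intro M hM I hI hT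
      exact hM I hI hT fun u hu => hU u hu I hI hT
  refine ⟨S, hS, hwin, key, fun ℓ _ ρ hρ => ?_⟩
  obtain ⟨T, hT, h3⟩ := specialise.{u} serAll ρ hρ
  refine ⟨T, hT, fun n hnS hnT E V hV hE hF ρn hsp K _ _ _ => ?_⟩
  rw [(h3 n hnT ρn hsp).2.2 K, key n hnS E V hV hE hF K]

end H97

end Pool.Agent.MT100A
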