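import Pool.Agent.Helper97_MTA.LadA

/-! MT100-A, module LAD, part 2: neat matrices which normalise the span of the unipotents. -/

set_option autoImplicit false
set_option linter.unusedSectionVars false

namespace Pool.Agent.MT100A.H97

open Matrix Polynomial Pool.Agent.MT100 Pool.Agent.MT100G Pool.Agent.Helper78_MT Pool.Agent.MTL
open Pool.Agent.MT100A.H78 Pool.Agent.Helper46_MT Pool.Agent.Helper3_MT

variable {d : Type} [Fintype d] [DecidableEq d] {M : Set (Matrix d d ℂ)}

/-- a set of matrices closed under products, closed for the Zariski topology -/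
theorem prod_mem {G : Set (Matrix d d ℂ)} (hmul : ∀ a ∈ G, ∀ b ∈ G, a * b ∈ G)
    (h1 : (1 : Matrix d d ℂ) ∈ G) {n : ℕ} {π : Fin n → Matrix d d ℂ} {r : ℕ}
    (hidem : ∀ a, π a * π a = π a) (horth : ∀ a b, a ≠ b → π a * π b = 0) (hsum : ∑ a, π a = 1)
    (f : Fin r → Fin n → ℂ) (hf : ∀ j, ∑ a, f j a • π a ∈ G) (s : Finset (Fin r)) :
    ∑ a, (∏ j ∈ s, f j a) • π a ∈ G := by
  classical
  induction s using Finset.induction_on with
  | empty =>
    simp only [Finset.prod_empty, one_smul, hsum]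
    exact h1
  | insert j s hj ih =>
    have h2 : ∑ a, (∏ j ∈ insert j s, f j a) • π a =
        (∑ a, f j a • π a) * ∑ a, (∏ j ∈ s, f j a) • π a := by
      rw [Finset.sum_mul]
      apply Finset.sum_congr rfl
      intro a _
      rw [Finset.mul_sum, Finset.sum_eq_single a]
      · rw [smul_mul_smul_comm, hidem, Finset.prod_insert hj]
      · intro b _ hb
        rw [smul_mul_smul_comm, horth a b (Ne.symm hb), smul_zero]
      · intro h
        exact absurd (Finset.mem_univ a) h
    rw [h2]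
    exact hmul _ (hf j) _ ih

/-- the inclusion of a neat normalising element in the closed groups which contain the unipotents and
the homotheties -/
theorem neat_mem (h2 : JorStmt) (h3 : LogStmt) (h4 : CurStmt)
    (hnd : ∀ X ∈ UP M, (∀ Y ∈ UP M, (X * Y).trace = 0) → X = 0)
    (hM : ∀ a ∈ M, ∀ b ∈ M, a * b ∈ M) (hA : AbsIrr M) {h : Matrix d d ℂ} (hu : IsUnit h.det)
    (hn : Neat h) (hW : ∀ A ∈ UP M, h * A * h⁻¹ ∈ UP M) {G : Set (Matrix d d ℂ)}
    (hmul : ∀ a ∈ G, ∀ b ∈ G, a * b ∈ G) (h1 : (1 : Matrix d d ℂ) ∈ G)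
    (hcl : ∀ g ∈ zclosure ℂ ℂ G, g ∈ G) (hun : ∀ u ∈ Uni M, u ∈ G)
    (hsc : ∀ c : ℂ, c ≠ 0 → c • (1 : Matrix d d ℂ) ∈ G) : h ∈ G := by
  obtain ⟨r, n, π, m, x, U, hidem, horth, hsum, hx, hU, hcomm, heq, hst⟩ := h2 d h hu hn
  obtain ⟨hs1, hs2⟩ := hst (UP M) hW
  have hin : ∀ D : Matrix d d ℂ, (∀ A ∈ UP M, D * A - A * D ∈ UP M) → D ∈ lieOf G := by
    intro D hD
    obtain ⟨u, hu', c, hc⟩ := norm_in hnd hM hA hD
    rw [hc]
    exact Submodule.add_mem _ (UP_lie hmul hun hu') (Submodule.smul_mem _ _ (one_lie hmul hsc))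
  have hUG : U ∈ G := hcl _ ((h4 d G h1).2 U hU (hin _ (h3 d U hU (UP M) hs1)))
  have hcG : ∀ j, ∑ a, (x j ^ m j a) • π a ∈ G := fun j =>
    hcl _ ((h4 d G h1).1 n π (m j) hidem horth hsum (hin _ (hs2 j)) (x j) (hx j))
  rw [heq]
  exact hmul _ (prod_mem hmul h1 hidem horth hsum (fun j a => x j ^ m j a) hcG Finset.univ) _ hUG

/-- traces of idempotents -/
theorem trace_int {π : Matrix d d ℂ} (h : π * π = π) : ∃ k : ℕ, π.trace = k := by
  have h1 : (Matrix.toLin' π) * (Matrix.toLin' π) = Matrix.toLin' π := by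
    rw [Module.End.mul_eq_comp, ← Matrix.toLin'_mul, h]
  refine ⟨rk (Matrix.toLin' π), ?_⟩
  rw [← Matrix.trace_toLin'_eq, trace_idem h1]

/-- a power of a neat normalising element is the product of a homothety and an element of every closed
group which contains the unipotents -/
theorem neat_scal (h2 : JorStmt) (h3 : LogStmt) (h4 : CurStmt)
    (hnd : ∀ X ∈ UP M, (∀ Y ∈ UP M, (X * Y).trace = 0) → X = 0)
    (hM : ∀ a ∈ M, ∀ b ∈ M, a * b ∈ M) (hA : AbsIrr M) {h : Matrix d d ℂ} (hu : IsUnit h.det)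
    (hn : Neat h) (hW : ∀ A ∈ UP M, h * A * h⁻¹ ∈ UP M) {G : Set (Matrix d d ℂ)}
    (hmul : ∀ a ∈ G, ∀ b ∈ G, a * b ∈ G) (h1 : (1 : Matrix d d ℂ) ∈ G)
    (hcl : ∀ g ∈ zclosure ℂ ℂ G, g ∈ G) (hun : ∀ u ∈ Uni M, u ∈ G) :
    ∃ y : ℂ, y ≠ 0 ∧ ∃ g ∈ G, h ^ Fintype.card d = y • g := by
  obtain ⟨r, n, π, m, x, U, hidem, horth, hsum, hx, hU, hcomm, heq, hst⟩ := h2 d h hu hn
  obtain ⟨hs1, hs2⟩ := hst (UP M) hW
  obtain ⟨N, hN⟩ : ∃ N, N = Fintype.card d := ⟨_, rfl⟩
  -- the unipotent part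
  have hUG : U ∈ G := by
    obtain ⟨u, hu', c, hc⟩ := norm_in hnd hM hA (h3 d U hU (UP M) hs1)
    have htr : (lg U).trace = 0 := by
      unfold lg
      rw [trace_sum]
      apply Finset.sum_eq_zero
      intro k _
      rw [trace_smul, (isNilpotent_trace_of_isNilpotent (hU.pow_succ k)).eq_zero, smul_zero]
    have hlu : lg U ∈ UP M := by
      rw [hc, trace_add, UP_trace hu', zero_add, trace_smul, trace_one, smul_eq_mul] at htr
      rcases mul_eq_zero.1 htr with h0 | h0
      · rw [hc, h0, zero_smul, add_zero]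
        exact hu'
      · have hd : Fintype.card d = 0 := by exact_mod_cast h0
        have : IsEmpty d := Fintype.card_eq_zero_iff.1 hd
        rw [Subsingleton.elim (lg U) 0]
        exact Submodule.zero_mem _
    exact hcl _ ((h4 d G h1).2 U hU (UP_lie hmul hun hlu))
  -- the cocharacters
  have hco : ∀ j, ∃ k : ℤ, ∀ z : ℂ, z ≠ 0 → ∑ a, (z ^ (N * m j a - k)) • π a ∈ G := by
    intro j
    obtain ⟨u, hu', c, hc⟩ := norm_in hnd hM hA (hs2 j)
    have htr : ∃ k : ℤ, (∑ a, (m j a : ℂ) • π a).trace = k := by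
      rw [trace_sum]
      choose t ht using fun a => trace_int (hidem a)
      refine ⟨∑ a, m j a * t a, ?_⟩
      push_cast
      apply Finset.sum_congr rfl
      intro a _
      rw [trace_smul, ht, smul_eq_mul]
    obtain ⟨k, hk⟩ := htr
    refine ⟨k, fun z hz => hcl _ ((h4 d G h1).1 n π (fun a => N * m j a - k) hidem horth hsum ?_ z hz)⟩
    apply UP_lie hmul hun
    have hck : c * N = k := by
      rw [← hk, hc, trace_add, UP_trace hu', zero_add, trace_smul, trace_one, smul_eq_mul, hN]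
    have h5 : ∑ a, (((N * m j a - k : ℤ)) : ℂ) • π a = (N : ℂ) • u := by
      have h6 : ∑ a, (((N * m j a - k : ℤ)) : ℂ) • π a =
          (N : ℂ) • (∑ a, (m j a : ℂ) • π a) - (k : ℂ) • ∑ a, π a := by
        rw [Finset.smul_sum, Finset.smul_sum, ← Finset.sum_sub_distrib]
        apply Finset.sum_congr rfl
        intro a _
        push_cast
        rw [sub_smul, smul_smul]
      rw [h6, hsum, hc, smul_add, smul_smul, ← hck, mul_comm c, add_sub_cancel_right]
    rw [h5]
    exact Submodule.smul_mem _ _ hu'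
  choose k hk using hco
  have hpowU : U ^ N ∈ G := by
    have : ∀ i : ℕ, U ^ i ∈ G := by
      intro i
      induction i with
      | zero => rw [pow_zero]; exact h1
      | succ i ih => rw [pow_succ]; exact hmul _ ih _ hUG
    exact this N
  have hg1 := prod_mem hmul h1 hidem horth hsum (fun j a => x j ^ (N * m j a - k j))
    (fun j => hk j (x j) (hx j)) Finset.univ
  refine ⟨∏ j, x j ^ k j, Finset.prod_ne_zero_iff.2 fun j _ => zpow_ne_zero _ (hx j), _,
    hmul _ hg1 _ hpowU, ?_⟩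
  rw [← hN, heq]
  have hpow : ∀ i : ℕ, ((∑ a, (∏ j, x j ^ m j a) • π a) * U) ^ i =
      (∑ a, ((∏ j, x j ^ m j a) ^ i) • π a) * U ^ i := by
    intro i
    induction i with
    | zero =>
      simp only [pow_zero, one_smul, hsum, mul_one]
    | succ i ih =>
      have hc1 : U ^ i * (∑ a, (∏ j, x j ^ m j a) • π a) =
          (∑ a, (∏ j, x j ^ m j a) • π a) * U ^ i := by
        have hc2 : Commute (∑ a, (∏ j, x j ^ m j a) • π a) U := by
          unfold Commute SemiconjBy
          rw [Finset.sum_mul, Finset.mul_sum]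
          apply Finset.sum_congr rfl
          intro a _
          rw [smul_mul_assoc, mul_smul_comm, hcomm]
        exact (hc2.pow_right i).eq.symm
      rw [pow_succ, ih, Matrix.mul_assoc, ← Matrix.mul_assoc (U ^ i), hc1, Matrix.mul_assoc _ (U ^ i),
        ← pow_succ, ← Matrix.mul_assoc]
      congr 1
      rw [Finset.sum_mul]
      apply Finset.sum_congr rfl
      intro a _
      rw [Finset.mul_sum, Finset.sum_eq_single a]
      · rw [smul_mul_smul_comm, hidem, pow_succ]
      · intro b _ hb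
        rw [smul_mul_smul_comm, horth a b (Ne.symm hb), smul_zero]
      · intro h
        exact absurd (Finset.mem_univ a) h
  rw [hpow, ← smul_mul_assoc]
  congr 1
  rw [Finset.smul_sum]
  apply Finset.sum_congr rfl
  intro a _
  rw [smul_smul, ← Finset.prod_mul_distrib, ← Finset.prod_pow]
  congr 1
  apply Finset.prod_congr rfl
  intro j _
  rw [← _root_.zpow_add₀ (hx j), ← _root_.zpow_natCast, ← _root_.zpow_mul]
  congr 1
  ring

end Pool.Agent.MT100A.H97
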