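import Pool.Agent.Helper97_MTA.Maa
import Pool.Agent.Helper97_MTG.Ass
import Pool.Agent.Helper46_MTA.Exa
import Pool.Agent.Helper17_MTA.Htr
import Pool.Agent.Helper47_MT100A.Kea
import Pool.Agent.Helper47_MT100A.Nma
import Pool.Agent.Helper43_MTA.Pma
import Pool.Agent.Helper69_MTA.T1a
import Pool.Agent.Helper69_MTA.Ela
import Pool.Agent.Helper20_MTA.Ten
import Pool.Agent.Helper78_MTA.Teu
import Pool.Agent.Helper78_MTA.Fsa
import Pool.Agent.Helper96_MTA.Psa

/-! Assembly of MT100-A. -/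

set_option autoImplicit false

namespace Pool.Agent.MT100A.H97

open Matrix Polynomial Pool.Agent.MT100 Pool.Agent.MT100G Pool.Agent.Helper78_MT

universe u v

theorem exa' : ExaStmt := H46.exa moa
theorem t1a' : T1aStmt := H69.t1a moa
theorem tua' (hH : HmnStmt) : TuaStmt := tua hH H17.htr H47.kea
theorem psa' (hH : HmnStmt) : PsaStmt := H96.psa moa t1a' (tua' hH) H43.pma
theorem fsa' (hH : HmnStmt) : FsaStmt :=
  H78.fsa MT100G.H97.bas' MT100G.H97.vag' (psa' hH) MT100G.H97.eva' exa' moa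
theorem nma' (hH : HmnStmt) : NmaStmt :=
  H47.nma (fsa' hH) MT100G.H97.gfm' MT100.H27.trg MT100.H83.sys MT100G.H97.eva'
theorem ela' (hH : HmnStmt) : ElaStmt :=
  H69.ela (nma' hH) MT100G.H97.vag' MT100G.H97.bas' exa' moa

/-- the main theorem -/
theorem mainA (hH : HmnStmt) (hL : LieStmt) : MainAStmt.{u, v} :=
  maa (ela' hH) H20.ten H78.teu hL

end Pool.Agent.MT100A.H97
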