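import Pool.Agent.Helper97_MTA.Lah
import Pool.Agent.Helper34_MTA.FinC
import Pool.Agent.Helper34_MTA.Diag
import Pool.Agent.Helper81_MTA.Nea
import Pool.Agent.Helper64_MTA.Jor
import Pool.Agent.Helper64_MTA.Des
import Pool.Agent.Helper96_MTA.Log
import Pool.Agent.Helper78_MTA.Cur

/-! MT100-A: the Mumford-Tate conjecture for families of the first kind. -/

set_option autoImplicit false
set_option linter.unusedSectionVars false

namespace Pool.Agent.MT100A.H97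

open Matrix Polynomial Pool.Agent.MT100 Pool.Agent.MT100G Pool.Agent.Helper78_MT Pool.Agent.MTL

universe u

variable {d : Type} [Fintype d] [DecidableEq d]

/-- LAD, unconditional -/
theorem ladB (F : Sys d) {P : Matrix d d ℂ} (hP : IsUnit P.det) (hI : F.IntM P) {w : ℕ}
    {E : Matrix d d ℚ} {V : ℕ → Submodule ℂ (d → ℂ)}
    (hV : PolHodge w E V) (hE : F.InvM P E) (hFK : FirstKind E (F.Mo P))
    (hT : TorusIn w V (F.Mo P)) {ℓ : ℕ} [Fact ℓ.Prime] {Γ : Type} [Group Γ] [TopologicalSpace Γ]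
    [IsTopologicalGroup Γ] [CompactSpace Γ] {ρ : Γ →* GL d ℚ_[ℓ]} (hρ : Continuous ρ)
    (hgeo : F.GeoE P E ρ) (K : Type u) [Field K] [CharZero K] [Algebra ℚ_[ℓ] K] :
    monodromy ρ K = F.Gm P K :=
  lad_fk H81.nea H64.jor H96.log H78.cur H64.des F hP hI hV hE hFK hT hρ hgeo K

/-- for families of the first kind the smallest group which contains the torus is `Gm` -/
theorem gen_fk (F : Sys d) {P : Matrix d d ℂ} (hP : IsUnit P.det) (hI : F.IntM P) {w : ℕ}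
    (hw : 1 ≤ w) {E : Matrix d d ℚ} {V : ℕ → Submodule ℂ (d → ℂ)} (hV : PolHodge w E V)
    (hE : F.InvM P E) (hFK : FirstKind E (F.Mo P)) (hT : TorusIn w V (F.Mo P)) (K : Type u)
    [Field K] [CharZero K] : F.Gen P w V K = F.Gm P K :=
  gen_eq F hP hI hw hV hE (Or.inl (irr_fk F hP hI hV hE hFK hT)) K

/-- the final form for families of the first kind -/
theorem finB (d : Type) [Fintype d] [DecidableEq d] (F : Sys d) (w : ℕ) (lev : d → ℕ)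
    (hw : 1 ≤ w) :
    ∃ (C : ℕ) (n1 : ℕ → ℕ), ∀ P : Matrix d d ℂ, IsUnit P.det → F.IntM P →
      ∃ S : Set ℕ, DensZero S ∧
        (∀ K n : ℕ, n1 K ≤ n → Nat.card {m : ℕ // m ∈ S ∧ n < m + K ∧ m ≤ n} ≤ C) ∧
        (∀ n : ℕ, n ∉ S → ∀ (E : Matrix d d ℚ) (V : ℕ → Submodule ℂ (d → ℂ)),
          F.Fibre lev P w n E V → FirstKind E (F.Mo P) → TorusIn w V (F.Mo P) →
          ∀ (K : Type u) [Field K] [CharZero K], mtGroup w V K = F.Gm P K) ∧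
        ∀ ρ : (ℓ : ℕ) → [Fact ℓ.Prime] → GT →* GL d ℚ_[ℓ],
          (∀ (ℓ : ℕ) [Fact ℓ.Prime], Continuous (ρ ℓ)) →
          ∃ (T : Set ℕ) (N : ℕ → ℕ), DensZero T ∧ ∀ (ℓ : ℕ) [Fact ℓ.Prime] (n : ℕ),
            n ∉ S → n ∉ T → N ℓ ≤ n →
            ∀ (E : Matrix d d ℚ) (V : ℕ → Submodule ℂ (d → ℂ)), F.Fibre lev P w n E V →
            FirstKind E (F.Mo P) → TorusIn w V (F.Mo P) → F.GeoE P E (ρ ℓ) →
            ∀ ρn : GQ →* GL d ℚ_[ℓ], Specializes (ρ ℓ) n ρn →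
            ∀ (K : Type u) [Field K] [CharZero K] [Algebra ℚ_[ℓ] K],
              monodromy ρn K = mtGroup w V K := by
  obtain ⟨C, n1, h⟩ := fin.{u} d F w lev hw
  refine ⟨C, n1, fun P hP hI => ?_⟩
  obtain ⟨-, S, hS, hwin, h2, -⟩ := h P hP hI
  have hgm : ∀ n : ℕ, n ∉ S → ∀ (E : Matrix d d ℚ) (V : ℕ → Submodule ℂ (d → ℂ)),
      F.Fibre lev P w n E V → FirstKind E (F.Mo P) → TorusIn w V (F.Mo P) →
      ∀ (K : Type u) [Field K] [CharZero K], mtGroup w V K = F.Gm P K := by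
    intro n hn E V hF hFK hT K _ _
    rw [h2 n hn E V hF.1 hF.2.1 hF.2.2 K]
    exact gen_fk F hP hI hw hF.1 hF.2.1 hFK hT K
  refine ⟨S, hS, hwin, hgm, fun ρ hρ => ?_⟩
  obtain ⟨T, N, hT, h3⟩ := H34.diag_prime
    (fun ℓ n => ∀ [Fact ℓ.Prime], ∀ ρn : GQ →* GL d ℚ_[ℓ], Specializes (ρ ℓ) n ρn →
      ∀ (K : Type u) [Field K] [Algebra ℚ_[ℓ] K], monodromy ρn K = monodromy (ρ ℓ) K) (by
    intro ℓ hℓ
    have : Fact ℓ.Prime := ⟨hℓ⟩
    obtain ⟨T, hT, h4⟩ := specialise.{u} serAll (ρ ℓ) (hρ ℓ)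
    exact ⟨T, hT, fun n hn _ ρn hsp K _ _ => (h4 n hn ρn hsp).2.2 K⟩)
  refine ⟨T, N, hT, fun ℓ _ n hnS hnT hN E V hF hFK hTT hgeo ρn hsp K _ _ _ => ?_⟩
  rw [h3 ℓ Fact.out n hnT hN ρn hsp K, hgm n hnS E V hF hFK hTT K]
  exact ladB F hP hI hF.1 hF.2.1 hFK hTT (hρ ℓ) hgeo K

end Pool.Agent.MT100A.H97
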