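import Pool.Agent.Helper97_MTA.LadB

/-! MT100-A, module LAD, part 3: assembly. -/

set_option autoImplicit false
set_option linter.unusedSectionVars false

namespace Pool.Agent.MT100A.H97

open Matrix Polynomial Pool.Agent.MT100 Pool.Agent.MT100G Pool.Agent.Helper78_MT Pool.Agent.MTL
open Pool.Agent.MT100A.H78 Pool.Agent.Helper46_MT Pool.Agent.Helper3_MT

universe u

variable {d : Type} [Fintype d] [DecidableEq d] {M : Set (Matrix d d ℂ)}

/-- polynomials and field homomorphisms -/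
theorem pev_ring {L L' : Type*} [Field L] [Field L'] (ι : L →+* L') (X : Matrix d d L)
    (p : MvPolynomial (d × d) L) : pev (X.map ι) (MvPolynomial.map ι p) = ι (pev X p) := by
  induction p using MvPolynomial.induction_on with
  | C c => simp [pev]
  | add p q hp hq => rw [map_add, map_add, hp, hq, map_add, map_add]
  | mul_X p ij hp =>
    rw [map_mul, map_mul, hp, map_mul, map_mul, MvPolynomial.map_X, pev_X, pev_X]
    rfl

/-- the determinant as a polynomial -/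
noncomputable def dpol (d : Type) [Fintype d] [DecidableEq d] : MvPolynomial (d × d) ℂ :=
  Matrix.det (Matrix.of fun i j => (MvPolynomial.X (i, j) : MvPolynomial (d × d) ℂ))

theorem pev_dpol (X : Matrix d d ℂ) : pev X (dpol d) = X.det := by
  unfold dpol
  have h1 := AlgHom.map_det (pev (F := ℂ) X)
    (Matrix.of fun i j => (MvPolynomial.X (i, j) : MvPolynomial (d × d) ℂ))
  rw [h1]
  congr 1
  ext i j
  rw [AlgHom.mapMatrix_apply, Matrix.map_apply, Matrix.of_apply, pev_X]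

/-- the closure of the closure -/
theorem zcl_zcl {T : Set (Matrix d d ℂ)} {g : Matrix d d ℂ} (hg : g ∈ zcl (zcl T)) : g ∈ zcl T :=
  ⟨hg.1, fun p hp => hg.2 p (fun _ hx => hx.2 p hp)⟩

theorem zcl_mono {T T' : Set (Matrix d d ℂ)} (h : T ⊆ zcl T') {g : Matrix d d ℂ}
    (hg : g ∈ zcl T) : g ∈ zcl T' :=
  ⟨hg.1, fun p hp => hg.2 p (fun _ hx => (h hx).2 p hp)⟩

theorem zcl_one {T : Set (Matrix d d ℂ)} (h1 : (1 : Matrix d d ℂ) ∈ T) :
    (1 : Matrix d d ℂ) ∈ zcl T :=
  ⟨by rw [det_one]; exact isUnit_one, fun _ hp => hp 1 h1⟩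

/-- the group generated by a set inside the closure of a monoid -/
theorem clo_sub {T T' : Set (Matrix d d ℂ)} (hT : ∀ a ∈ T, ∀ b ∈ T, a * b ∈ T)
    (h1 : (1 : Matrix d d ℂ) ∈ T) (h : T' ⊆ zcl T) :
    (Submonoid.closure T' : Set (Matrix d d ℂ)) ⊆ zcl T := by
  intro x hx
  induction hx using Submonoid.closure_induction with
  | mem x hx => exact h hx
  | one => exact zcl_one h1
  | mul x y _ _ hx hy => exact zcl_mul hT hx hy

theorem zcl_det {T : Set (Matrix d d ℂ)} (hT : ∀ a ∈ T, a.det = 1) {g : Matrix d d ℂ}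
    (hg : g ∈ zcl T) : g.det = 1 := by
  have h1 := hg.2 (dpol d - 1) (by
    intro x hx
    rw [map_sub, map_one, pev_dpol, hT x hx, sub_self])
  rw [map_sub, map_one, pev_dpol] at h1
  exact sub_eq_zero.1 h1

theorem clo_det {T : Set (Matrix d d ℂ)} (hT : ∀ a ∈ T, a.det = 1) {g : Matrix d d ℂ}
    (hg : g ∈ Submonoid.closure T) : g.det = 1 := by
  induction hg using Submonoid.closure_induction with
  | mem x hx => exact hT x hx
  | one => exact det_one
  | mul x y _ _ hx hy => rw [det_mul, hx, hy, one_mul]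

/-- homotheties: one of infinite order is enough -/
theorem hom_all {T : Set (Matrix d d ℂ)} (hT : ∀ a ∈ T, ∀ b ∈ T, a * b ∈ T)
    (h1 : (1 : Matrix d d ℂ) ∈ T) {y : ℂ} (hy : y ≠ 0) (hy1 : ∀ k : ℕ, 0 < k → y ^ k ≠ 1)
    (hyT : y • (1 : Matrix d d ℂ) ∈ zcl T) {c : ℂ} (hc : c ≠ 0) :
    c • (1 : Matrix d d ℂ) ∈ zcl T := by
  have hpow : ∀ k : ℕ, y ^ k • (1 : Matrix d d ℂ) ∈ zcl T := by
    intro k
    induction k with
    | zero => rw [pow_zero, one_smul]; exact zcl_one h1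
    | succ k ih =>
      have h2 := zcl_mul hT ih hyT
      rwa [smul_mul_smul_comm, ← pow_succ, mul_one] at h2
  refine ⟨scal_unit hc, fun p hp => ?_⟩
  have h2 : cev (lin (0 : Matrix d d ℂ) 1) p = 0 := by
    apply Polynomial.eq_zero_of_infinite_isRoot
    apply Set.infinite_of_injective_forall_mem (f := fun k : ℕ => y ^ k)
    · have key : ∀ i j : ℕ, i < j → y ^ i ≠ y ^ j := by
        intro i j hij h
        apply hy1 (j - i) (Nat.sub_pos_of_lt hij)
        have h3 : y ^ i * y ^ (j - i) = y ^ i * 1 := by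
          rw [← pow_add, Nat.add_sub_cancel' hij.le, mul_one, h]
        exact mul_left_cancel₀ (pow_ne_zero _ hy) h3
      intro i j hij
      rcases lt_trichotomy i j with h | h | h
      · exact absurd hij (key i j h)
      · exact h
      · exact absurd hij.symm (key j i h)
    · intro k
      change Polynomial.eval _ _ = 0
      rw [cev_eval, lin_eval, zero_add]
      exact (hpow k).2 p hp
  have h3 := cev_eval (lin (0 : Matrix d d ℂ) 1) c p
  rw [h2, lin_eval, zero_add, Polynomial.eval_zero] at h3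
  exact h3.symm

theorem span_pev {L : Type*} [Field L] [CharZero L] {K : Type*} [Field K] [CharZero K] [Algebra L K]
    {I : Set (MvPolynomial (d × d) ℚ)} {x : Matrix d d K} (hx : ∀ g ∈ I, pev x g = 0)
    {p : MvPolynomial (d × d) L}
    (hp : p ∈ Submodule.span L (MvPolynomial.map (algebraMap ℚ L) '' I)) : pev x p = 0 := by
  induction hp using Submodule.span_induction with
  | mem q hq =>
    obtain ⟨g, hg, rfl⟩ := hq
    rw [pev_map]
    exact hx g hg
  | zero => exact map_zero _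
  | add a b _ _ ha hb => rw [map_add, ha, hb, add_zero]
  | smul c a _ ha => rw [map_smul, ha, smul_zero]

/-- the closed group over `ℚ` generated by a set which is stable under automorphisms -/
theorem des_group (h5 : DesStmt) {Z : Set (Matrix d d ℂ)} (hmul : ∀ a ∈ Z, ∀ b ∈ Z, a * b ∈ Z)
    (h1 : (1 : Matrix d d ℂ) ∈ Z) (haut : ∀ (τ : ℂ ≃+* ℂ), ∀ z ∈ Z, z.map τ ∈ Z) :
    zeros {g : MvPolynomial (d × d) ℚ | ∀ z ∈ Z, pev z (MvPolynomial.map (algebraMap ℚ ℂ) g) = 0} ℂ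
      = zcl Z ∧ IsAlgSubgroup
      {g : MvPolynomial (d × d) ℚ | ∀ z ∈ Z, pev z (MvPolynomial.map (algebraMap ℚ ℂ) g) = 0} := by
  obtain ⟨I, hI⟩ : ∃ I, I = {g : MvPolynomial (d × d) ℚ | ∀ z ∈ Z,
      pev z (MvPolynomial.map (algebraMap ℚ ℂ) g) = 0} := ⟨_, rfl⟩
  rw [← hI]
  have heq : zeros I ℂ = zcl Z := by
    refine Set.Subset.antisymm ?_ ?_
    · intro x hx
      refine ⟨hx.1, fun p hp => ?_⟩
      have h2 := h5 d Z haut ℂ (RingHom.id ℂ) p (by
        intro z hz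
        rw [MvPolynomial.map_id]
        exact hp z hz)
      rw [← hI] at h2
      exact span_pev (fun g hg => hx.2 g hg) h2
    · intro x hx
      refine ⟨hx.1, fun p hp => ?_⟩
      rw [← pevC]
      apply hx.2
      intro z hz
      rw [hI] at hp
      exact hp z hz
  refine ⟨heq, ?_, ?_, ?_⟩
  · rw [heq]; exact zcl_one h1
  · intro X hX Y hY
    rw [heq] at hX hY ⊢
    exact zcl_mul hmul hX hY
  · intro X hX
    rw [heq] at hX ⊢
    exact zcl_inv hmul h1 hX

/-- the words in the unipotents and the homotheties -/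
def Zs (M : Set (Matrix d d ℂ)) : Submonoid (Matrix d d ℂ) :=
  Submonoid.closure (Uni M ∪ {x | ∃ c : ℂ, c ≠ 0 ∧ x = c • (1 : Matrix d d ℂ)})

theorem Zs_aut (hr : ∀ τ : ℂ ≃+* ℂ, ∀ γ ∈ M, γ.map τ = γ) (τ : ℂ ≃+* ℂ) {z : Matrix d d ℂ}
    (hz : z ∈ Zs M) : z.map τ ∈ Zs M := by
  unfold Zs at hz ⊢
  induction hz using Submonoid.closure_induction with
  | mem x hx =>
    apply Submonoid.subset_closure
    rcases hx with hx | ⟨c, hc, rfl⟩
    · exact Or.inl (Uni_aut hr τ hx)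
    · refine Or.inr ⟨τ c, (map_ne_zero_iff τ τ.injective).2 hc, ?_⟩
      ext i j
      rw [Matrix.map_apply, Matrix.smul_apply, Matrix.smul_apply, smul_eq_mul, smul_eq_mul, map_mul]
      congr 1
      by_cases h : i = j
      · rw [h, one_apply_eq, map_one]
      · rw [one_apply_ne h, map_zero]
  | one =>
    have : (1 : Matrix d d ℂ).map τ = 1 := Matrix.map_one τ (map_zero τ) (map_one τ)
    rw [this]
    exact Submonoid.one_mem _
  | mul x y _ _ hx hy =>
    have h1 : (x * y).map τ = x.map τ * y.map τ := by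
      have := map_mul (τ : ℂ →+* ℂ).mapMatrix x y
      rwa [RingHom.mapMatrix_apply, RingHom.mapMatrix_apply, RingHom.mapMatrix_apply] at this
    rw [h1]
    exact Submonoid.mul_mem _ hx hy

/-- the first inclusion -/
theorem lad_le (h1 : NeaStmt) (h2 : JorStmt) (h3 : LogStmt) (h4 : CurStmt) (F : Sys d)
    {P : Matrix d d ℂ} (hnd : ∀ X ∈ UP (F.Mo P), (∀ Y ∈ UP (F.Mo P), (X * Y).trace = 0) → X = 0)
    (hM : ∀ a ∈ F.Mo P, ∀ b ∈ F.Mo P, a * b ∈ F.Mo P) (hA : AbsIrr (F.Mo P))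
    {ℓ : ℕ} [Fact ℓ.Prime] {Γ : Type} [Group Γ] [TopologicalSpace Γ] [IsTopologicalGroup Γ]
    [CompactSpace Γ] {ρ : Γ →* GL d ℚ_[ℓ]} (hρ : Continuous ρ) (ι : ℚ_[ℓ] →+* ℂ)
    (hW : ∀ γ : Γ, ∀ A ∈ UP (F.Mo P), (ρ γ : Matrix d d ℚ_[ℓ]).map ι * A *
      ((ρ γ : Matrix d d ℚ_[ℓ]).map ι)⁻¹ ∈ UP (F.Mo P))
    {K : Type u} [Field K] [CharZero K] [Algebra ℚ_[ℓ] K] {x : Matrix d d K}
    (hx : x ∈ monodromy ρ K) : x ∈ F.Gm P K := by
  intro I hI hsc hun
  obtain ⟨Γ', hΓ', hne⟩ := h1 d ℓ Γ ρ hρ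
  obtain ⟨hxu, hx2⟩ := hx Γ' hΓ'
  refine ⟨hxu, fun p hp => ?_⟩
  have h6 := hx2 (MvPolynomial.map (algebraMap ℚ ℚ_[ℓ]) p) (by
    rintro _ ⟨γ, hγ, rfl⟩
    rw [pev_map]
    have h7 : (ρ γ : Matrix d d ℚ_[ℓ]).map ι ∈ zeros I ℂ := by
      have hu : IsUnit ((ρ γ : Matrix d d ℚ_[ℓ]).map ι).det := by
        have h8 := ((isUnit_iff_isUnit_det _).1 (ρ γ).isUnit).map ι
        rwa [RingHom.map_det, RingHom.mapMatrix_apply] at h8
      refine neat_mem h2 h3 h4 hnd hM hA hu (hne γ hγ ι) (hW γ) hI.2.1 hI.1 ?_ hun hsc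
      intro g hg
      refine ⟨hg.1, fun q hq => ?_⟩
      rw [← pevC]
      exact hg.2 _ (fun y hy => by rw [pevC]; exact hy.2 q hq)
    have h8 := h7.2 p hp
    rw [pev_hom ι] at h8
    exact (map_eq_zero_iff ι ι.injective).1 h8)
  rwa [pev_map] at h6

end Pool.Agent.MT100A.H97
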