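import Pool.Agent.Helper97_MTA.LadC
import Pool.Agent.MT100A.DefsL

/-! MT100-A, module LAD for families of the first kind, part 1: normalisers. -/

set_option autoImplicit false
set_option linter.unusedSectionVars false

namespace Pool.Agent.MT100A.H97

open Matrix Polynomial Pool.Agent.MT100 Pool.Agent.MT100G Pool.Agent.Helper78_MT Pool.Agent.MTL
open Pool.Agent.MT100A.H78 Pool.Agent.Helper46_MT Pool.Agent.Helper3_MT

variable {d : Type} [Fintype d] [DecidableEq d] {M : Set (Matrix d d ℂ)}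

/-- infinitesimal normalisers of the first kind -/
theorem norm_fk {E : Matrix d d ℚ}
    (hnd : ∀ X ∈ UP M, (∀ Y ∈ UP M, (X * Y).trace = 0) → X = 0)
    (hM : ∀ a ∈ M, ∀ b ∈ M, a * b ∈ M)
    (hF : ∀ γ ∈ M, γᵀ * E.map (algebraMap ℚ ℂ) * γ = E.map (algebraMap ℚ ℂ))
    (hFK : FirstKind E M) {D : Matrix d d ℂ}
    (hD : ∀ A ∈ UP M, D * A - A * D ∈ UP M) (hDC : ∀ B ∈ Cmt M, D * B = B * D)
    (hDE : ∃ c : ℂ, Dᵀ * E.map (algebraMap ℚ ℂ) + E.map (algebraMap ℚ ℂ) * D =
      c • E.map (algebraMap ℚ ℂ)) :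
    ∃ u ∈ UP M, ∃ c : ℂ, D = u + c • (1 : Matrix d d ℂ) := by
  obtain ⟨u, hu, htr⟩ := UP_proj hnd D
  have hcm : D - u ∈ Cmt M := by
    intro X hX
    have hXU : X ∈ UP M := Submodule.subset_span hX
    have h3 : (D - u) * X - X * (D - u) ∈ UP M := by
      have h4 : (D - u) * X - X * (D - u) = (D * X - X * D) - (u * X - X * u) := by
        rw [sub_mul, mul_sub]; abel
      rw [h4]
      exact Submodule.sub_mem _ (hD X hXU) (UP_br hM hu hXU)
    have h4 := hnd _ h3 (by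
      intro Y hY
      have h5 : ∀ D : Matrix d d ℂ, ((D * X - X * D) * Y).trace =
          (D * (X * Y - Y * X)).trace := by
        intro D
        rw [sub_mul, trace_sub, mul_sub, trace_sub, Matrix.mul_assoc D X Y, Matrix.mul_assoc X D Y,
          trace_mul_comm X (D * Y), Matrix.mul_assoc D Y X]
      have h6 := htr _ (UP_br hM hXU hY)
      rw [h5, sub_mul, trace_sub, h6, sub_self])
    exact sub_eq_zero.mp h4
  have huB : ∀ B ∈ Cmt M, u * B = B * u := by
    intro B hB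
    clear htr hcm
    induction hu using Submodule.span_induction with
    | mem X hX => exact (hB X hX).symm
    | zero => rw [zero_mul, mul_zero]
    | add X Y _ _ h1 h2 => rw [add_mul, mul_add, h1, h2]
    | smul c X _ h1 => rw [smul_mul_assoc, mul_smul_comm, h1]
  obtain ⟨c, hc⟩ := hDE
  have huE : uᵀ * E.map (algebraMap ℚ ℂ) + E.map (algebraMap ℚ ℂ) * u = 0 := UP_form hF hu
  obtain ⟨c', hc'⟩ := hFK (D - u) hcm (fun B hB => by rw [sub_mul, mul_sub, hDC B hB, huB B hB])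
    ⟨c, by
      rw [transpose_sub, sub_mul, mul_sub, ← hc]
      calc Dᵀ * E.map (algebraMap ℚ ℂ) - uᵀ * E.map (algebraMap ℚ ℂ) +
            (E.map (algebraMap ℚ ℂ) * D - E.map (algebraMap ℚ ℂ) * u)
          = Dᵀ * E.map (algebraMap ℚ ℂ) + E.map (algebraMap ℚ ℂ) * D -
            (uᵀ * E.map (algebraMap ℚ ℂ) + E.map (algebraMap ℚ ℂ) * u) := by abel
        _ = _ := by rw [huE, sub_zero]⟩
  exact ⟨u, hu, c', by rw [← hc', add_sub_cancel]⟩

/-- all subspaces which are stable under conjugation by `h` are stable under the bracket with `D` -/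
def AdS (h D : Matrix d d ℂ) : Prop :=
  ∀ W : Submodule ℂ (Matrix d d ℂ), (∀ A ∈ W, h * A * h⁻¹ ∈ W) → ∀ A ∈ W, D * A - A * D ∈ W

theorem ads_comm {h D B : Matrix d d ℂ} (hu : IsUnit h.det) (hS : AdS h D) (hB : h * B = B * h) :
    D * B = B * D := by
  have key : ∀ B : Matrix d d ℂ, h * B = B * h → ∃ a : ℂ, D * B - B * D = a • B := by
    intro B hB
    have h1 := hS (Submodule.span ℂ {B}) (by
      intro A hA
      obtain ⟨a, rfl⟩ := Submodule.mem_span_singleton.1 hA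
      apply Submodule.mem_span_singleton.2
      refine ⟨a, ?_⟩
      rw [mul_smul_comm, smul_mul_assoc, hB, Matrix.mul_assoc, mul_nonsing_inv h hu, mul_one]) B
      (Submodule.mem_span_singleton_self B)
    obtain ⟨a, ha⟩ := Submodule.mem_span_singleton.1 h1
    exact ⟨a, ha.symm⟩
  obtain ⟨a, ha⟩ := key B hB
  obtain ⟨b, hb⟩ := key (B + 1) (by rw [mul_add, add_mul, hB, mul_one, one_mul])
  have hb' : D * B - B * D = b • (B + 1) := by
    rw [← hb, mul_add, add_mul, mul_one, one_mul]; abel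
  rw [ha] at hb'
  by_cases hab : a = b
  · rw [hab, smul_add] at hb'
    have h0 : b • (1 : Matrix d d ℂ) = 0 := by
      have : b • B + 0 = b • B + b • (1 : Matrix d d ℂ) := by rw [add_zero, ← hb']
      exact (add_left_cancel this).symm
    have h1 : D * B - B * D = 0 := by
      rw [ha, hab]
      calc b • B = (b • (1 : Matrix d d ℂ)) * B := by rw [smul_mul_assoc, one_mul]
        _ = 0 := by rw [h0, zero_mul]
    exact sub_eq_zero.1 h1
  · have h1 : (a - b) • B = b • (1 : Matrix d d ℂ) := by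
      rw [sub_smul, hb', smul_add]; abel
    have h2 : B = ((a - b)⁻¹ * b) • (1 : Matrix d d ℂ) := by
      rw [mul_smul, ← h1, smul_smul, inv_mul_cancel₀ (sub_ne_zero.2 hab), one_smul]
    rw [h2, mul_smul_comm, smul_mul_assoc, mul_one, one_mul]

/-- matrices which commute with all matrices -/
theorem scalar_of_comm {S : Matrix d d ℂ} (h : ∀ A : Matrix d d ℂ, A * S = S * A) :
    ∃ c : ℂ, S = c • (1 : Matrix d d ℂ) := by
  have h1 : S ∈ Set.range (Matrix.scalar d) := by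
    apply Matrix.mem_range_scalar_of_commute_single
    intro i j _
    exact h _
  obtain ⟨c, hc⟩ := h1
  refine ⟨c, ?_⟩
  rw [← hc]
  ext i j
  by_cases hij : i = j
  · rw [hij]
    simp
  · simp [hij]

theorem ads_form {h D Fm : Matrix d d ℂ} {η : ℂ} (hη : η * η = 1) (hu : IsUnit h.det)
    (hFu : IsUnit Fm.det) (hFt : Fmᵀ = η • Fm) (hS : AdS h D) {χ : ℂ} (hh : hᵀ * Fm * h = χ • Fm) :
    ∃ c : ℂ, Dᵀ * Fm + Fm * D = c • Fm := by
  have hhi : h * h⁻¹ = 1 := mul_nonsing_inv h hu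
  have hhi' : h⁻¹ * h = 1 := nonsing_inv_mul h hu
  have hFi : Fm * Fm⁻¹ = 1 := mul_nonsing_inv Fm hFu
  have hFi' : Fm⁻¹ * Fm = 1 := nonsing_inv_mul Fm hFu
  -- the two spaces
  let W : ℂ → Submodule ℂ (Matrix d d ℂ) := fun ε =>
    { carrier := {A | Aᵀ * Fm = ε • (Fm * A)}
      add_mem' := by
        intro A B hA hB
        simp only [Set.mem_ofPred_eq] at hA hB ⊢
        rw [transpose_add, add_mul, hA, hB, mul_add, smul_add]
      zero_mem' := by
        simp
      smul_mem' := by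
        intro c A hA
        simp only [Set.mem_ofPred_eq] at hA ⊢
        rw [transpose_smul, smul_mul_assoc, hA, mul_smul_comm, smul_comm] }
  have hW : ∀ ε A, A ∈ W ε ↔ Aᵀ * Fm = ε • (Fm * A) := fun ε A => Iff.rfl
  have hst : ∀ ε, ∀ A ∈ W ε, h * A * h⁻¹ ∈ W ε := by
    intro ε A hA
    rw [hW] at hA ⊢
    have e1 : (h⁻¹)ᵀ * hᵀ = 1 := by rw [← transpose_mul, hhi, transpose_one]
    have e2 : hᵀ * Fm = χ • (Fm * h⁻¹) := by
      calc hᵀ * Fm = hᵀ * Fm * (h * h⁻¹) := by rw [hhi, mul_one]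
        _ = (hᵀ * Fm * h) * h⁻¹ := by simp only [Matrix.mul_assoc]
        _ = _ := by rw [hh, smul_mul_assoc]
    have e3 : χ • ((h⁻¹)ᵀ * Fm) = Fm * h := by
      calc χ • ((h⁻¹)ᵀ * Fm) = (h⁻¹)ᵀ * (χ • Fm) := by rw [mul_smul_comm]
        _ = (h⁻¹)ᵀ * hᵀ * (Fm * h) := by rw [← hh]; simp only [Matrix.mul_assoc]
        _ = _ := by rw [e1, one_mul]
    calc (h * A * h⁻¹)ᵀ * Fm = (h⁻¹)ᵀ * Aᵀ * (hᵀ * Fm) := by
          rw [transpose_mul, transpose_mul]; simp only [Matrix.mul_assoc]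
      _ = χ • ((h⁻¹)ᵀ * (Aᵀ * Fm) * h⁻¹) := by
          rw [e2, mul_smul_comm]; simp only [Matrix.mul_assoc]
      _ = ε • (χ • ((h⁻¹)ᵀ * Fm) * A * h⁻¹) := by
          rw [hA]
          simp only [mul_smul_comm, smul_mul_assoc, Matrix.mul_assoc]
          rw [smul_comm]
      _ = _ := by rw [e3]; simp only [Matrix.mul_assoc]
  obtain ⟨S, hSd⟩ : ∃ S, S = Fm⁻¹ * (Dᵀ * Fm) := ⟨_, rfl⟩
  have hFS : Fm * S = Dᵀ * Fm := by rw [hSd, ← Matrix.mul_assoc, hFi, one_mul]
  have hcm : ∀ ε, ε * ε = 1 → ∀ A ∈ W ε, A * (S + D) = (S + D) * A := by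
    intro ε hε A hA
    have h1 := hS (W ε) (hst ε) A hA
    rw [hW] at h1 hA
    have a1 : Aᵀ * (Dᵀ * Fm) = (Aᵀ * Fm) * S := by rw [← hFS, ← Matrix.mul_assoc]
    have a2 : Dᵀ * (Aᵀ * Fm) = ε • ((Dᵀ * Fm) * A) := by
      rw [hA, mul_smul_comm, ← Matrix.mul_assoc]
    have e1 : (D * A - A * D)ᵀ * Fm = ε • (Fm * (A * S - S * A)) := by
      calc (D * A - A * D)ᵀ * Fm = Aᵀ * (Dᵀ * Fm) - Dᵀ * (Aᵀ * Fm) := by
            rw [transpose_sub, transpose_mul, transpose_mul, sub_mul]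
            simp only [Matrix.mul_assoc]
        _ = (Aᵀ * Fm) * S - ε • ((Dᵀ * Fm) * A) := by rw [a1, a2]
        _ = _ := by
            rw [hA, ← hFS, mul_sub, smul_sub, smul_mul_assoc]
            simp only [Matrix.mul_assoc]
    rw [e1] at h1
    have hε0 : ε ≠ 0 := by
      intro h0
      rw [h0, mul_zero] at hε
      exact zero_ne_one hε
    have h2 : Fm * (A * S - S * A) = Fm * (D * A - A * D) := by
      have := congrArg (fun z => ε⁻¹ • z) h1
      simpa only [smul_smul, inv_mul_cancel₀ hε0, one_smul] using this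
    have h3 : A * S - S * A = D * A - A * D := by
      have := congrArg (fun z => Fm⁻¹ * z) h2
      simpa only [← Matrix.mul_assoc, hFi', one_mul] using this
    rw [mul_add, add_mul]
    have h4 : A * S = S * A + (D * A - A * D) := by rw [← h3]; abel
    rw [h4]; abel
  have hall : ∀ A : Matrix d d ℂ, A * (S + D) = (S + D) * A := by
    intro A
    obtain ⟨B, hB⟩ : ∃ B, B = Fm⁻¹ * (Aᵀ * Fm) := ⟨_, rfl⟩
    have hFB : Fm * B = Aᵀ * Fm := by rw [hB, ← Matrix.mul_assoc, hFi, one_mul]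
    have hη0 : η ≠ 0 := by
      intro h0
      rw [h0, mul_zero] at hη
      exact zero_ne_one hη
    have hBt : Bᵀ * Fm = Fm * A := by
      have h1 := congrArg Matrix.transpose hFB
      rw [transpose_mul, transpose_mul, transpose_transpose, hFt, mul_smul_comm,
        smul_mul_assoc] at h1
      have := congrArg (fun z => η⁻¹ • z) h1
      simpa only [smul_smul, inv_mul_cancel₀ hη0, one_smul] using this
    have h1 := hcm 1 (one_mul 1) (A + B) (by
      rw [hW, transpose_add, add_mul, hBt, mul_add, hFB, one_smul, add_comm])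
    have h2 := hcm (-1) (by norm_num) (A - B) (by
      rw [hW, transpose_sub, sub_mul, hBt, mul_sub, hFB, neg_one_smul, neg_sub])
    obtain ⟨X, hX⟩ : ∃ X, X = A + B := ⟨_, rfl⟩
    obtain ⟨Y, hY⟩ : ∃ Y, Y = A - B := ⟨_, rfl⟩
    have e1 : A = (2⁻¹ : ℂ) • (X + Y) := by
      have : X + Y = (2 : ℂ) • A := by rw [hX, hY, two_smul]; abel
      rw [this, smul_smul, inv_mul_cancel₀ (two_ne_zero), one_smul]
    rw [← hX] at h1
    rw [← hY] at h2
    rw [e1, smul_mul_assoc, mul_smul_comm, add_mul X Y, mul_add (S + D) X Y, h1, h2]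
  obtain ⟨c, hc⟩ := scalar_of_comm hall
  refine ⟨c, ?_⟩
  rw [← hFS, ← mul_add, hc, mul_smul_comm, mul_one]

end Pool.Agent.MT100A.H97
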