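import Pool.Agent.Helper97_MTA.Laf

/-! MT100-A, module LAD for families of the first kind, part 3: the two inclusions. -/

set_option autoImplicit false
set_option linter.unusedSectionVars false

namespace Pool.Agent.MT100A.H97

open Matrix Polynomial Pool.Agent.MT100 Pool.Agent.MT100G Pool.Agent.Helper78_MT Pool.Agent.MTL
open Pool.Agent.MT100A.H78 Pool.Agent.Helper46_MT Pool.Agent.Helper3_MT

universe u

variable {d : Type} [Fintype d] [DecidableEq d] {M : Set (Matrix d d ℂ)}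

/-- the first inclusion -/
theorem lad_le' (h1 : NeaStmt) (h2 : JorStmt) (h3 : LogStmt) (h4 : CurStmt) (F : Sys d)
    {P : Matrix d d ℂ}
    {ℓ : ℕ} [Fact ℓ.Prime] {Γ : Type} [Group Γ] [TopologicalSpace Γ] [IsTopologicalGroup Γ]
    [CompactSpace Γ] {ρ : Γ →* GL d ℚ_[ℓ]} (hρ : Continuous ρ) (ι : ℚ_[ℓ] →+* ℂ)
    {Γc : Subgroup Γ} (hc : Γc.FiniteIndex)
    (hnorm : ∀ γ ∈ Γc, ∀ D : Matrix d d ℂ, AdS ((ρ γ : Matrix d d ℚ_[ℓ]).map ι) D →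
      ∃ u ∈ UP (F.Mo P), ∃ c : ℂ, D = u + c • (1 : Matrix d d ℂ))
    {K : Type u} [Field K] [CharZero K] [Algebra ℚ_[ℓ] K] {x : Matrix d d K}
    (hx : x ∈ monodromy ρ K) : x ∈ F.Gm P K := by
  intro I hI hsc hun
  obtain ⟨Γ', hΓ', hne⟩ := h1 d ℓ Γ ρ hρ
  have hfin : (Γ' ⊓ Γc).FiniteIndex := by
    have := hΓ'
    have := hc
    infer_instance
  obtain ⟨hxu, hx2⟩ := hx (Γ' ⊓ Γc) hfin
  refine ⟨hxu, fun p hp => ?_⟩
  have h6 := hx2 (MvPolynomial.map (algebraMap ℚ ℚ_[ℓ]) p) (by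
    rintro _ ⟨γ, hγ, rfl⟩
    rw [pev_map]
    have h7 : (ρ γ : Matrix d d ℚ_[ℓ]).map ι ∈ zeros I ℂ := by
      have hu : IsUnit ((ρ γ : Matrix d d ℚ_[ℓ]).map ι).det := by
        have h8 := ((isUnit_iff_isUnit_det _).1 (ρ γ).isUnit).map ι
        rwa [RingHom.map_det, RingHom.mapMatrix_apply] at h8
      refine neat_mem' h2 h3 h4 hu (hne γ hγ.1 ι) (hnorm γ hγ.2) hI.2.1 hI.1 ?_ hun hsc
      intro g hg
      refine ⟨hg.1, fun q hq => ?_⟩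
      rw [← pevC]
      exact hg.2 _ (fun y hy => by rw [pevC]; exact hy.2 q hq)
    have h8 := h7.2 p hp
    rw [pev_hom ι] at h8
    exact (map_eq_zero_iff ι ι.injective).1 h8)
  rwa [pev_map] at h6

/-- the second inclusion -/
theorem lad_ge' (h1 : NeaStmt) (h2 : JorStmt) (h3 : LogStmt) (h4 : CurStmt) (h5 : DesStmt) (F : Sys d)
    {P : Matrix d d ℂ}
    (hr : ∀ τ : ℂ ≃+* ℂ, ∀ γ ∈ F.Mo P, γ.map τ = γ)
    {ℓ : ℕ} [Fact ℓ.Prime] {Γ : Type} [Group Γ] [TopologicalSpace Γ] [IsTopologicalGroup Γ]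
    [CompactSpace Γ] {ρ : Γ →* GL d ℚ_[ℓ]} (hρ : Continuous ρ) (ι : ℚ_[ℓ] →+* ℂ)
    {Γc : Subgroup Γ} (hc : Γc.FiniteIndex)
    (hnorm : ∀ γ ∈ Γc, ∀ D : Matrix d d ℂ, AdS ((ρ γ : Matrix d d ℚ_[ℓ]).map ι) D →
      ∃ u ∈ UP (F.Mo P), ∃ c : ℂ, D = u + c • (1 : Matrix d d ℂ))
    (hcomp : ∀ Γ' : Subgroup Γ, Γ'.FiniteIndex → ∀ f : MvPolynomial (d × d) ℚ_[ℓ],
      (∀ γ ∈ Γ', pev (ρ γ : Matrix d d ℚ_[ℓ]) f = 0) →
      ∀ u ∈ Uni (F.Mo P), pev u (MvPolynomial.map ι f) = 0)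
    (hdet : ∃ γ : Γ, ∀ m : ℕ, 0 < m → (ρ γ : Matrix d d ℚ_[ℓ]).det ^ m ≠ 1)
    {K : Type u} [Field K] [CharZero K] [Algebra ℚ_[ℓ] K] {x : Matrix d d K}
    (hx : x ∈ F.Gm P K) : x ∈ monodromy ρ K := by
  intro Γ' hΓ'
  obtain ⟨T, hT⟩ : ∃ T : Set (Matrix d d ℂ), T = {X | ∃ γ ∈ Γ', X = (ρ γ : Matrix d d ℚ_[ℓ]).map ι} :=
    ⟨_, rfl⟩
  have hmap : ∀ a b : Γ, (ρ (a * b) : Matrix d d ℚ_[ℓ]).map ι =
      (ρ a : Matrix d d ℚ_[ℓ]).map ι * (ρ b : Matrix d d ℚ_[ℓ]).map ι := by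
    intro a b
    rw [map_mul, GeneralLinearGroup.coe_mul]
    have := map_mul ι.mapMatrix (ρ a : Matrix d d ℚ_[ℓ]) (ρ b : Matrix d d ℚ_[ℓ])
    rwa [RingHom.mapMatrix_apply, RingHom.mapMatrix_apply, RingHom.mapMatrix_apply] at this
  have hmap1 : (ρ 1 : Matrix d d ℚ_[ℓ]).map ι = 1 := by
    rw [map_one, GeneralLinearGroup.coe_one]
    exact Matrix.map_one ι (map_zero ι) (map_one ι)
  have hTm : ∀ a ∈ T, ∀ b ∈ T, a * b ∈ T := by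
    rw [hT]
    rintro _ ⟨a, ha, rfl⟩ _ ⟨b, hb, rfl⟩
    exact ⟨a * b, Γ'.mul_mem ha hb, (hmap a b).symm⟩
  have hT1 : (1 : Matrix d d ℂ) ∈ T := by
    rw [hT]
    exact ⟨1, Γ'.one_mem, hmap1.symm⟩
  have hunit : ∀ γ : Γ, IsUnit ((ρ γ : Matrix d d ℚ_[ℓ]).map ι).det := by
    intro γ
    have h8 := ((isUnit_iff_isUnit_det _).1 (ρ γ).isUnit).map ι
    rwa [RingHom.map_det, RingHom.mapMatrix_apply] at h8
  have hdetm : ∀ γ : Γ, ((ρ γ : Matrix d d ℚ_[ℓ]).map ι).det = ι (ρ γ : Matrix d d ℚ_[ℓ]).det := by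
    intro γ
    rw [RingHom.map_det, RingHom.mapMatrix_apply]
  -- the unipotents
  have hUT : ∀ u ∈ Uni (F.Mo P), u ∈ zcl T := by
    intro u hu
    refine ⟨by rw [det_uni hu]; exact isUnit_one, fun q hq => ?_⟩
    let _ : Algebra ℚ_[ℓ] ℂ := ι.toAlgebra
    refine vanish_basechange (F := ℚ_[ℓ]) (K := ℂ)
      (S := {X | ∃ γ ∈ Γ', X = (ρ γ : Matrix d d ℚ_[ℓ])}) ?_ q ?_
    · intro p hp
      have h6 := hcomp Γ' hΓ' p (fun γ hγ => hp _ ⟨γ, hγ, rfl⟩) u hu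
      have h7 : pev u (MvPolynomial.map (algebraMap ℚ_[ℓ] ℂ) p) = pev u p := pev_map u p
      rw [← h7]
      exact h6
    · rintro _ ⟨γ, hγ, rfl⟩
      apply hq
      rw [hT]
      exact ⟨γ, hγ, rfl⟩
  -- the group of determinant one
  obtain ⟨G0, hG0⟩ : ∃ G0 : Set (Matrix d d ℂ), G0 = zcl (Submonoid.closure (Uni (F.Mo P)) :
    Set (Matrix d d ℂ)) := ⟨_, rfl⟩
  have hG0m : ∀ a ∈ G0, ∀ b ∈ G0, a * b ∈ G0 := by
    rw [hG0]
    intro a ha b hb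
    exact zcl_mul (fun a ha b hb => Submonoid.mul_mem _ ha hb) ha hb
  have hG01 : (1 : Matrix d d ℂ) ∈ G0 := by
    rw [hG0]
    exact zcl_one (Submonoid.one_mem _)
  have hG0c : ∀ g ∈ zclosure ℂ ℂ G0, g ∈ G0 := by
    rw [hG0]
    intro g hg
    exact zcl_zcl hg
  have hG0u : ∀ u ∈ Uni (F.Mo P), u ∈ G0 := by
    rw [hG0]
    intro u hu
    exact ⟨by rw [det_uni hu]; exact isUnit_one, fun p hp => hp u (Submonoid.subset_closure hu)⟩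
  have hG0T : G0 ⊆ zcl T := by
    rw [hG0]
    intro g hg
    exact zcl_mono (clo_sub hTm hT1 hUT) hg
  have hG0i : ∀ g ∈ G0, g⁻¹ ∈ G0 := by
    rw [hG0]
    intro g hg
    exact zcl_inv (fun a ha b hb => Submonoid.mul_mem _ ha hb) (Submonoid.one_mem _) hg
  have hG0d : ∀ g ∈ G0, g.det = 1 := by
    rw [hG0]
    intro g hg
    exact zcl_det (fun a ha => clo_det (fun u hu => det_uni hu) ha) hg
  -- a homothety of infinite order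
  obtain ⟨Γn, hΓn, hne⟩ := h1 d ℓ Γ ρ hρ
  obtain ⟨γ0, hγ0⟩ := hdet
  have hfin : (Γ' ⊓ (Γn ⊓ Γc)).FiniteIndex := by
    have := hΓ'
    have := hΓn
    have := hc
    infer_instance
  obtain ⟨m, hm, hmem⟩ : ∃ m : ℕ, 0 < m ∧ γ0 ^ m ∈ Γ' ⊓ (Γn ⊓ Γc) := by
    obtain ⟨m, hm, -, hmem⟩ := Subgroup.exists_pow_mem_of_index_ne_zero
      (H := Γ' ⊓ (Γn ⊓ Γc)) hfin.index_ne_zero γ0
    exact ⟨m, hm, hmem⟩
  obtain ⟨y, hy, g, hg, hyg⟩ := neat_scal' h2 h3 h4 (hunit (γ0 ^ m))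
    (hne _ hmem.2.1 ι) (hnorm _ hmem.2.2) hG0m hG01 hG0c hG0u
  obtain ⟨h, hh⟩ : ∃ h : Matrix d d ℂ, h = (ρ (γ0 ^ m) : Matrix d d ℚ_[ℓ]).map ι := ⟨_, rfl⟩
  rw [← hh] at hyg
  have hcard : 0 < Fintype.card d := by
    rcases Nat.eq_zero_or_pos (Fintype.card d) with h0 | h0
    · exfalso
      have : IsEmpty d := Fintype.card_eq_zero_iff.1 h0
      apply hγ0 1 one_pos
      rw [Matrix.det_isEmpty, one_pow]
    · exact h0
  have hy1 : ∀ k : ℕ, 0 < k → y ^ k ≠ 1 := by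
    intro k hk hyk
    have h6 := congrArg Matrix.det hyg
    rw [det_pow, det_smul, hG0d g hg, mul_one, hh, hdetm] at h6
    have h7 : (ρ (γ0 ^ m) : Matrix d d ℚ_[ℓ]).det = (ρ γ0 : Matrix d d ℚ_[ℓ]).det ^ m := by
      rw [map_pow]
      have h8 : (((ρ γ0) ^ m : GL d ℚ_[ℓ]) : Matrix d d ℚ_[ℓ]) = (ρ γ0 : Matrix d d ℚ_[ℓ]) ^ m :=
        Units.val_pow_eq_pow_val _ _
      rw [h8, det_pow]
    rw [h7] at h6
    apply hγ0 (m * Fintype.card d * k) (Nat.mul_pos (Nat.mul_pos hm hcard) hk)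
    apply ι.injective
    rw [map_one, map_pow, pow_mul, pow_mul]
    rw [map_pow] at h6
    rw [h6, ← pow_mul, mul_comm, pow_mul, hyk, one_pow]
  have hyT : y • (1 : Matrix d d ℂ) ∈ zcl T := by
    have hhT : h ∈ T := by
      rw [hT, hh]
      exact ⟨_, hmem.1, rfl⟩
    have hhz : h ∈ zcl T := ⟨by rw [hh]; exact hunit _, fun p hp => hp h hhT⟩
    have hpow : ∀ k : ℕ, h ^ k ∈ zcl T := by
      intro k
      induction k with
      | zero => rw [pow_zero]; exact zcl_one hT1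
      | succ k ih => rw [pow_succ]; exact zcl_mul hTm ih hhz
    have h6 := zcl_mul hTm (hpow (Fintype.card d)) (hG0T (hG0i g hg))
    rw [hyg, Matrix.smul_mul, mul_nonsing_inv g (by rw [hG0d g hg]; exact isUnit_one)] at h6
    exact h6
  have hsT : ∀ c : ℂ, c ≠ 0 → c • (1 : Matrix d d ℂ) ∈ zcl T := fun c hc =>
    hom_all hTm hT1 hy hy1 hyT hc
  -- descent
  have hZT : (Zs (F.Mo P) : Set (Matrix d d ℂ)) ⊆ zcl T := by
    apply clo_sub hTm hT1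
    rintro z (hz | ⟨c, hc, rfl⟩)
    · exact hUT z hz
    · exact hsT c hc
  have haut : ∀ (τ : ℂ ≃+* ℂ), ∀ z ∈ (Zs (F.Mo P) : Set (Matrix d d ℂ)),
      z.map τ ∈ (Zs (F.Mo P) : Set (Matrix d d ℂ)) := fun τ z hz => Zs_aut hr τ hz
  obtain ⟨hze, hzg⟩ := des_group h5 (Z := (Zs (F.Mo P) : Set (Matrix d d ℂ)))
    (fun a ha b hb => Submonoid.mul_mem _ ha hb) (Submonoid.one_mem _) haut
  have hxz := hx _ hzg (by
    intro c hc
    rw [hze]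
    exact ⟨scal_unit hc, fun p hp => hp _ (Submonoid.subset_closure (Or.inr ⟨c, hc, rfl⟩))⟩) (by
    intro u hu
    rw [hze]
    exact ⟨by rw [det_uni hu]; exact isUnit_one,
      fun p hp => hp _ (Submonoid.subset_closure (Or.inl hu))⟩)
  refine ⟨hxz.1, fun f hf => ?_⟩
  have h6 := h5 d (Zs (F.Mo P) : Set (Matrix d d ℂ)) haut ℚ_[ℓ] ι f (by
    intro z hz
    apply (hZT hz).2
    rw [hT]
    rintro _ ⟨γ, hγ, rfl⟩
    rw [pev_ring, hf _ ⟨γ, hγ, rfl⟩, map_zero])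
  exact span_pev hxz.2 h6

end Pool.Agent.MT100A.H97
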